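import Pool.Agent.Helper6K1.ZM.Rat

/-!
Subsets of finite codimension in the rational group algebra.
-/

set_option autoImplicit false
set_option linter.unusedSectionVars false

open scoped Matrix

namespace Pool.Agent.Helper6K1.ZP

open Pool.Agent.H919R4.ZS MonoidAlgebra Pool.Agent.TH38.ZT Pool.Agent.R807.ZK
open Pool.Agent.Helper6K1.ZM

noncomputable section

variable {Γ : Type} [Group Γ]

/-- the set contains the kernel of a linear map to a finite dimensional space -/
def Cof (J : Set (MonoidAlgebra ℚ Γ)) : Prop :=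
  ∃ (E : Type) (_ : AddCommGroup E) (_ : Module ℚ E) (_ : FiniteDimensional ℚ E)
    (φ : MonoidAlgebra ℚ Γ →ₗ[ℚ] E), ∀ a, φ a = 0 → a ∈ J

lemma Cof.univ : Cof (Set.univ : Set (MonoidAlgebra ℚ Γ)) :=
  ⟨ℚ, inferInstance, inferInstance, inferInstance, 0, fun a _ => Set.mem_univ a⟩

lemma Cof.inter {J J' : Set (MonoidAlgebra ℚ Γ)} (h : Cof J) (h' : Cof J') : Cof (J ∩ J') := by
  obtain ⟨E, _, _, _, φ, hφ⟩ := h
  obtain ⟨E', _, _, _, φ', hφ'⟩ := h'
  refine ⟨E × E', inferInstance, inferInstance, inferInstance, φ.prod φ', fun a ha => ?_⟩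
  have h1 : (φ a, φ' a) = 0 := ha
  exact ⟨hφ a (congrArg Prod.fst h1), hφ' a (congrArg Prod.snd h1)⟩

lemma Cof.mono {J J' : Set (MonoidAlgebra ℚ Γ)} (h : Cof J) (h' : J ⊆ J') : Cof J' := by
  obtain ⟨E, _, _, _, φ, hφ⟩ := h
  exact ⟨E, inferInstance, inferInstance, inferInstance, φ, fun a ha => h' (hφ a ha)⟩

lemma Cof.comap {Q : Type} [Group Q] (j : MonoidAlgebra ℚ Γ →ₗ[ℚ] MonoidAlgebra ℚ Q)
    {J : Set (MonoidAlgebra ℚ Q)} (h : Cof J) : Cof (j ⁻¹' J) := by
  obtain ⟨E, _, _, _, φ, hφ⟩ := h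
  exact ⟨E, inferInstance, inferInstance, inferInstance, φ ∘ₗ j, fun a ha => hφ _ ha⟩

/-- sets of finite codimension generate the unit ideal -/
theorem span_of_cof (hna : (1 : RedC Γ) ∈ Submodule.span (RedC Γ)
      (Set.range fun g : Γ => (1 : RedC Γ) - toC (single g 1)))
    {J : Set (MonoidAlgebra ℚ Γ)} (h : Cof J) :
    (1 : RedC Γ) ∈ Submodule.span (RedC Γ) ((fun a => toC (cpx Γ a)) '' J) := by
  obtain ⟨E, _, _, _, φ, hφ⟩ := h
  have hfr : (LinearMap.range φ).FG := IsNoetherian.noetherian _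
  obtain ⟨s, hs⟩ := hfr
  have hpre : ∀ v : E, v ∈ s → ∃ b, φ b = v := by
    intro v hv
    have : v ∈ LinearMap.range φ := by
      rw [← hs]; exact Submodule.subset_span hv
    exact this
  choose! b hb using hpre
  have hdec : ∀ a : MonoidAlgebra ℚ Γ, ∃ w ∈ Submodule.span ℚ (b '' (s : Set _)), φ (a - w) = 0 := by
    intro a
    have h1 : φ a ∈ Submodule.span ℚ (s : Set _) := by rw [hs]; exact ⟨a, rfl⟩
    have h2 : ∀ v ∈ Submodule.span ℚ (s : Set E),
        ∃ w ∈ Submodule.span ℚ (b '' (s : Set _)), φ w = v := by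
      intro v hv
      induction hv using Submodule.span_induction with
      | mem x hx => exact ⟨b x, Submodule.subset_span ⟨x, hx, rfl⟩, hb x hx⟩
      | zero => exact ⟨0, Submodule.zero_mem _, map_zero φ⟩
      | add x y _ _ hx hy =>
        obtain ⟨w, hw, e⟩ := hx
        obtain ⟨w', hw', e'⟩ := hy
        exact ⟨w + w', Submodule.add_mem _ hw hw', by rw [map_add, e, e']⟩
      | smul c x _ hx =>
        obtain ⟨w, hw, e⟩ := hx
        exact ⟨c • w, Submodule.smul_mem _ _ hw, by rw [map_smul, e]⟩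
    obtain ⟨w, hw, e⟩ := h2 _ h1
    exact ⟨w, hw, by rw [map_sub, e, sub_self]⟩
  let W : Submodule ℂ (MonoidAlgebra ℂ Γ) := Submodule.span ℂ ((fun x => cpx Γ (b x)) '' (s : Set _))
  have : FiniteDimensional ℂ W :=
    FiniteDimensional.span_of_finite ℂ (s.finite_toSet.image _)
  have hWr : ∀ w ∈ Submodule.span ℚ (b '' (s : Set _)), cpx Γ w ∈ W := by
    intro w hw
    induction hw using Submodule.span_induction with
    | mem x hx =>
      obtain ⟨y, hy, rfl⟩ := hx
      exact Submodule.subset_span ⟨y, hy, rfl⟩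
    | zero => rw [map_zero]; exact W.zero_mem
    | add x y _ _ hx hy => rw [map_add]; exact W.add_mem hx hy
    | smul c x _ hx => rw [cpx_smul]; exact W.smul_mem _ hx
  have hW : ∀ a : MonoidAlgebra ℂ Γ, ∃ w ∈ W, a - w ∈ Submodule.span ℂ (cpx Γ '' J) := by
    intro a
    refine induction_linear a ?_ ?_ ?_
    · exact ⟨0, W.zero_mem, by rw [sub_zero]; exact Submodule.zero_mem _⟩
    · rintro x y ⟨w, hw, e⟩ ⟨w', hw', e'⟩
      refine ⟨w + w', W.add_mem hw hw', ?_⟩
      have : x + y - (w + w') = (x - w) + (y - w') := by abel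
      rw [this]
      exact Submodule.add_mem _ e e'
    · intro g c
      obtain ⟨w, hw, e⟩ := hdec (single g 1)
      refine ⟨c • cpx Γ w, W.smul_mem _ (hWr w hw), ?_⟩
      have h1 : (single g c : MonoidAlgebra ℂ Γ) = c • cpx Γ (single g 1) := by
        rw [cpx_single, smul_single, smul_eq_mul, Rat.cast_one, mul_one]
      rw [h1, ← smul_sub, ← map_sub]
      exact Submodule.smul_mem _ _ (Submodule.subset_span ⟨_, hφ _ e, rfl⟩)
  have hfinal := one_mem (G := Γ) hna (cpx Γ '' J) W hW
  rwa [Set.image_image] at hfinal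

/-- finite dimensional homology: the annihilator has finite codimension -/
theorem cof_of_finDim {G Q : Type} [Group G] [Group Q] (X : FinRes G)
    (ψ : MonoidAlgebra ℤ G →+* MonoidAlgebra ℚ Q) (q : ℕ) (h : FinDim X ψ q) :
    Cof {a : MonoidAlgebra ℚ Q | ∀ z ∈ X.cyc ψ q, a • z ∈ LinearMap.range (X.del ψ q)} := by
  obtain ⟨m, c, hc⟩ := h
  let B : Submodule ℚ (Fin (X.n q) → MonoidAlgebra ℚ Q) :=
    (LinearMap.range (X.del ψ q)).restrictScalars ℚ
  let U : Submodule ℚ ((Fin (X.n q) → MonoidAlgebra ℚ Q) ⧸ B) :=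
    Submodule.span ℚ (Set.range fun i => B.mkQ (c i))
  have hU : FiniteDimensional ℚ U := FiniteDimensional.span_of_finite ℚ (Set.finite_range _)
  have hcU : ∀ z ∈ X.cyc ψ q, B.mkQ z ∈ U := by
    intro z hz
    obtain ⟨r, hr⟩ := hc z hz
    have h3 : B.mkQ (z - ∑ i, r i • c i) = 0 := by
      rw [Submodule.mkQ_apply, Submodule.Quotient.mk_eq_zero]
      exact hr
    rw [map_sub, sub_eq_zero, map_sum] at h3
    rw [h3]
    refine Submodule.sum_mem _ fun i _ => ?_
    rw [map_smul]
    exact Submodule.smul_mem _ _ (Submodule.subset_span ⟨i, rfl⟩)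
  let V : Submodule ℚ ((Fin (X.n q) → MonoidAlgebra ℚ Q) ⧸ B) :=
    ((X.cyc ψ q).restrictScalars ℚ).map B.mkQ
  have hVU : V ≤ U := by
    rintro _ ⟨z, hz, rfl⟩
    exact hcU z hz
  have hV : V.FG := Submodule.FG.of_le (T := U) (Submodule.fg_span (Set.finite_range _)) hVU
  obtain ⟨s, hs⟩ := hV
  have hpre : ∀ v, v ∈ s → ∃ z ∈ X.cyc ψ q, B.mkQ z = v := by
    intro v hv
    have : v ∈ V := by
      rw [← hs]; exact Submodule.subset_span hv
    exact this
  choose! z hz hzv using hpre
  refine ⟨(s → U), inferInstance, inferInstance, inferInstance,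
    { toFun := fun a v => ⟨B.mkQ (a • z v), hcU _ (Submodule.smul_mem _ a (hz v v.2))⟩
      map_add' := fun a b => by
        funext v
        refine Subtype.ext ?_
        change B.mkQ ((a + b) • z v) = B.mkQ (a • z v) + B.mkQ (b • z v)
        rw [add_smul, map_add]
      map_smul' := fun r a => by
        funext v
        refine Subtype.ext ?_
        change B.mkQ ((r • a) • z v) = r • B.mkQ (a • z v)
        rw [smul_assoc, map_smul] }, fun a ha => ?_⟩
  have h1 : ∀ v ∈ s, a • z v ∈ LinearMap.range (X.del ψ q) := by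
    intro v hv
    have h2 := congrArg Subtype.val (congrFun ha ⟨v, hv⟩)
    have h3 : B.mkQ (a • z v) = 0 := h2
    rw [Submodule.mkQ_apply, Submodule.Quotient.mk_eq_zero] at h3
    exact h3
  have h2 : ∀ v ∈ Submodule.span ℚ (s : Set ((Fin (X.n q) → MonoidAlgebra ℚ Q) ⧸ B)),
      ∀ z', B.mkQ z' = v → a • z' ∈ LinearMap.range (X.del ψ q) := by
    intro v hv
    induction hv using Submodule.span_induction with
    | mem x hx =>
      intro z' hz'
      have h3 : B.mkQ (z' - z x) = 0 := by rw [map_sub, hz', hzv x hx, sub_self]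
      rw [Submodule.mkQ_apply, Submodule.Quotient.mk_eq_zero] at h3
      have h4 : a • z' = a • z x + a • (z' - z x) := by
        rw [← smul_add]
        congr 1
        abel
      rw [h4]
      exact Submodule.add_mem _ (h1 x hx) (Submodule.smul_mem _ a h3)
    | zero =>
      intro z' hz'
      rw [Submodule.mkQ_apply, Submodule.Quotient.mk_eq_zero] at hz'
      exact Submodule.smul_mem _ a hz'
    | add x y _ _ hx hy =>
      intro z' hz'
      obtain ⟨z1, rfl⟩ := B.mkQ_surjective x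
      have h4 : a • z' = a • z1 + a • (z' - z1) := by
        rw [← smul_add]
        congr 1
        abel
      rw [h4]
      refine Submodule.add_mem _ (hx z1 rfl) (hy _ ?_)
      rw [map_sub, hz', add_sub_cancel_left]
    | smul r x _ hx =>
      intro z' hz'
      obtain ⟨z1, rfl⟩ := B.mkQ_surjective x
      have h3 : B.mkQ (z' - r • z1) = 0 := by rw [map_sub, hz', map_smul, sub_self]
      rw [Submodule.mkQ_apply, Submodule.Quotient.mk_eq_zero] at h3
      have h4 : a • z' = r • (a • z1) + a • (z' - r • z1) := by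
        rw [smul_sub, smul_comm a r z1, add_sub_cancel]
      rw [h4]
      refine Submodule.add_mem _ ?_ (Submodule.smul_mem _ a h3)
      exact B.smul_mem r (hx z1 rfl)
  intro y hy
  refine h2 (B.mkQ y) ?_ y rfl
  rw [hs]
  exact ⟨y, hy, rfl⟩

end

end Pool.Agent.Helper6K1.ZP
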