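import Pool.Agent.Helper6K1.ZP.Ghost

/-!
Commuting subgroups.
-/

set_option autoImplicit false
set_option linter.unusedSectionVars false

namespace Pool.Agent.Helper6K1.ZP

open LinearMap

noncomputable section

variable {k : Type} [CommRing k] {Q : Type} [Group Q]
  {D : ℕ → Type} [∀ n, AddCommGroup (D n)] [∀ n, Module k (D n)]
  (σ : ∀ n, Representation k Q (D n)) (d : ∀ n, D (n + 1) →ₗ[k] D n)
  {M : Type} [AddCommGroup M] [Module k M] (ρ : Representation k Q M)

section restrict

variable {V W : Type} [AddCommGroup V] [Module k V] [AddCommGroup W] [Module k W]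
  {a : Representation k Q V} {b : Representation k Q W} {K L : Subgroup Q}

lemma eqv_sub (h : K ≤ L) (f : V →ₗ[k] W) :
    Eqv ((K.subgroupOf L : Subgroup L) : Set L) (a.comp L.subtype) (b.comp L.subtype) f ↔
      Eqv (K : Set Q) a b f :=
  ⟨fun H g hg x => H ⟨g, h hg⟩ hg x, fun H g hg x => H g hg x⟩

lemma eqv_top (f : V →ₗ[k] W) :
    Eqv (Set.univ : Set L) (a.comp L.subtype) (b.comp L.subtype) f ↔ Eqv (L : Set Q) a b f :=
  ⟨fun H g hg x => H ⟨g, hg⟩ (Set.mem_univ _) x, fun H g _ x => H g g.2 x⟩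

lemma coEx_sub (h : K ≤ L) (n : ℕ) :
    CoEx (fun n => (σ n).comp L.subtype) d (ρ.comp L.subtype)
      ((K.subgroupOf L : Subgroup L) : Set L) n ↔ CoEx σ d ρ (K : Set Q) n := by
  cases n with
  | zero =>
    constructor
    · intro H f hf hfd
      exact H f ((eqv_sub h f).2 hf) hfd
    · intro H f hf hfd
      exact H f ((eqv_sub h f).1 hf) hfd
  | succ n =>
    constructor
    · intro H f hf hfd
      obtain ⟨g, hg, hgd⟩ := H f ((eqv_sub h f).2 hf) hfd
      exact ⟨g, (eqv_sub h g).1 hg, hgd⟩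
    · intro H f hf hfd
      obtain ⟨g, hg, hgd⟩ := H f ((eqv_sub h f).1 hf) hfd
      exact ⟨g, (eqv_sub h g).2 hg, hgd⟩

lemma coEx_top (n : ℕ) :
    CoEx (fun n => (σ n).comp L.subtype) d (ρ.comp L.subtype) (Set.univ : Set L) n ↔
      CoEx σ d ρ (L : Set Q) n := by
  cases n with
  | zero =>
    constructor
    · intro H f hf hfd
      exact H f ((eqv_top f).2 hf) hfd
    · intro H f hf hfd
      exact H f ((eqv_top f).1 hf) hfd
  | succ n =>
    constructor
    · intro H f hf hfd
      obtain ⟨g, hg, hgd⟩ := H f ((eqv_top f).2 hf) hfd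
      exact ⟨g, (eqv_top g).1 hg, hgd⟩
    · intro H f hf hfd
      obtain ⟨g, hg, hgd⟩ := H f ((eqv_top f).1 hf) hfd
      exact ⟨g, (eqv_top g).2 hg, hgd⟩

end restrict

/-- the action of the group algebra of a subgroup -/
def alg {V : Type} [AddCommGroup V] [Module k V] (a : Representation k Q V) (Γ : Subgroup Q) :
    MonoidAlgebra k Γ →ₐ[k] Module.End k V :=
  MonoidAlgebra.lift k _ Γ (a.comp Γ.subtype)

lemma alg_single {V : Type} [AddCommGroup V] [Module k V] (a : Representation k Q V)
    (Γ : Subgroup Q) (g : Γ) (r : k) (x : V) :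
    alg a Γ (MonoidAlgebra.single g r) x = r • a (g : Q) x := by
  rw [alg, MonoidAlgebra.lift_single]
  rfl

/-- the subgroup generated by the first members of a sequence -/
def KK (Γ : ℕ → Subgroup Q) : ℕ → Subgroup Q
  | 0 => ⊥
  | r + 1 => KK Γ r ⊔ Γ r

variable (hσ : ∀ n g x, d n (σ (n + 1) g x) = σ n g (d n x)) (hdd : ∀ n x, d n (d (n + 1) x) = 0)
  (hP : ∀ (H : Type) [Group H] (j : H →* Q), Function.Injective j → ∀ n, Proj ((σ n).comp j))

/-- The elements of the group algebra of `Γ r` which kill the homology in degrees at most `T` act by a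
unit left ideal on `M`. -/
def Gen (T : ℕ) (Γ : Subgroup Q) : Prop :=
  ∃ (p : ℕ) (b : Fin p → M →ₗ[k] M) (a : Fin p → MonoidAlgebra k Γ),
    (∀ j, ∀ q : Q, (∀ γ ∈ Γ, q * γ = γ * q) → ∀ x, b j (ρ q x) = ρ q (b j x)) ∧
    (∀ j, ∀ t ≤ T, Kill d (fun n => alg (σ n) Γ (a j)) t) ∧
    ∑ j, b j ∘ₗ alg ρ Γ (a j) = LinearMap.id

section alg

variable {V W : Type} [AddCommGroup V] [Module k V] [AddCommGroup W] [Module k W]
  (a : Representation k Q V) (b : Representation k Q W) (Γ : Subgroup Q)

lemma alg_comm (f : V →ₗ[k] W) (hf : ∀ g ∈ Γ, ∀ x, f (a g x) = b g (f x)) (c : MonoidAlgebra k Γ)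
    (x : V) : f (alg a Γ c x) = alg b Γ c (f x) := by
  refine MonoidAlgebra.induction_linear c ?_ ?_ ?_
  · rw [map_zero, map_zero, LinearMap.zero_apply, LinearMap.zero_apply, map_zero]
  · intro y z hy hz
    rw [map_add, map_add, LinearMap.add_apply, LinearMap.add_apply, map_add, hy, hz]
  · intro g r
    rw [alg_single, alg_single, map_smul, hf g g.2 x]

lemma alg_eqv (q : Q) (hq : ∀ γ ∈ Γ, q * γ = γ * q) (c : MonoidAlgebra k Γ) (x : V) :
    alg a Γ c (a q x) = a q (alg a Γ c x) := by
  refine (alg_comm a a Γ (a q) ?_ c x).symm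
  intro g hg y
  rw [← Module.End.mul_apply, ← Module.End.mul_apply, ← map_mul, ← map_mul, hq g hg]

end alg

include hσ hdd hP

theorem claim (T : ℕ) (h0 : ∀ x : D 0, ∃ y, d 0 y = x)
    (h1 : ∀ x : D 1, d 0 x = 0 → ∃ y, d 1 y = x) (Γ : ℕ → Subgroup Q) (m : ℕ)
    (hcomm : ∀ i j, i ≠ j → ∀ x ∈ Γ i, ∀ y ∈ Γ j, x * y = y * x)
    (hU : ∀ r < m, Gen σ d ρ T (Γ r)) :
    ∀ r ≤ m, ∀ t ≤ r + 1, t ≤ T → CoEx σ d ρ (KK Γ r : Set Q) t := by
  intro r
  induction r with
  | zero =>
    intro _ t ht _
    intro f hf hfd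
    have hf0 : ∀ y, f (d t y) = 0 := fun y => LinearMap.congr_fun hfd y
    rcases Nat.le_one_iff_eq_zero_or_eq_one.1 ht with rfl | rfl
    · refine LinearMap.ext fun x => ?_
      obtain ⟨y, rfl⟩ := h0 x
      exact hf0 y
    · -- the map factors through the surjection `d 0`
      have hs : Function.Surjective (d 0) := h0
      have hk : LinearMap.ker (d 0) ≤ LinearMap.ker f := by
        intro x hx
        obtain ⟨y, rfl⟩ := h1 x hx
        exact hf0 y
      refine ⟨(LinearMap.ker (d 0)).liftQ f hk ∘ₗ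
        ((d 0).quotKerEquivOfSurjective hs).symm.toLinearMap, ?_, ?_⟩
      · intro g hg x
        rw [show g = 1 from hg, map_one, map_one]
        rfl
      · refine LinearMap.ext fun x => ?_
        rw [LinearMap.comp_apply, LinearMap.comp_apply]
        have h2 : ((d 0).quotKerEquivOfSurjective hs).symm (d 0 x) =
            Submodule.Quotient.mk x := by
          rw [LinearEquiv.symm_apply_eq]
          rfl
        change (LinearMap.ker (d 0)).liftQ f hk
          (((d 0).quotKerEquivOfSurjective hs).symm (d 0 x)) = f x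
        rw [h2]
        rfl
  | succ r ih =>
    intro hr t ht hT
    have ih' := ih (by omega)
    have hcent : ∀ s ≤ r, ∀ x ∈ KK Γ s, ∀ y ∈ Γ r, x * y = y * x := by
      intro s
      induction s with
      | zero =>
        intro _ x hx y _
        rw [show x = 1 from hx, one_mul, mul_one]
      | succ s ihs =>
        intro hs x hx y hy
        have h2 : KK Γ s ⊔ Γ s ≤ Subgroup.centralizer (Γ r : Set Q) := by
          refine sup_le ?_ ?_
          · intro z hz
            rw [Subgroup.mem_centralizer_iff]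
            intro h hh
            exact (ihs (by omega) z hz h hh).symm
          · intro z hz
            rw [Subgroup.mem_centralizer_iff]
            intro h hh
            exact hcomm r s (by omega) h hh z hz
        exact ((Subgroup.mem_centralizer_iff.1 (h2 hx)) y hy).symm
    set K := KK Γ r with hK
    set L : Subgroup Q := K ⊔ Γ r with hL
    have hKL : K ≤ L := le_sup_left
    have hΓL : Γ r ≤ L := le_sup_right
    have hc : ∀ x ∈ K, ∀ y ∈ Γ r, x * y = y * x := hcent r le_rfl
    have hnorm : (K.subgroupOf L).Normal := by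
      refine (Subgroup.normal_subgroupOf_iff_le_normalizer hKL).2 (sup_le Subgroup.le_normalizer ?_)
      rw [Subgroup.le_normalizer_iff]
      intro h hh x hx
      rw [← hc x hx h hh, mul_assoc, mul_inv_cancel, mul_one]
      exact hx
    obtain ⟨p, b, a, hb, ha, hba⟩ := hU r (by omega)
    have hstep := step (fun n => (σ n).comp L.subtype) d (fun n g x => hσ n g x) hdd
      (ρ.comp L.subtype) (K.subgroupOf L) (fun n => hP L L.subtype Subtype.val_injective n)
      (fun n => hP (K.subgroupOf L) (L.subtype.comp (K.subgroupOf L).subtype)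
        (Subtype.val_injective.comp Subtype.val_injective) n) t
      ⟨p, b, fun j => alg ρ (Γ r) (a j),
        fun j n => alg (σ n) (Γ r) (a j), fun j => ?_, fun j => ?_,
        fun j n => ?_, fun j s hs => ha j s (hs.trans hT), fun j f hf => ?_, hba⟩
      (fun s hs => (coEx_sub σ d ρ hKL s).2 (ih' s (by omega) (by omega)))
    · exact (coEx_top σ d ρ t).1 hstep
    · intro g hg x
      exact hb j g (fun γ hγ => hc g hg γ hγ) x
    · intro n x
      exact alg_comm (σ (n + 1)) (σ n) (Γ r) (d n) (fun g _ y => hσ n g y) (a j) x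
    · intro g hg x
      exact alg_eqv (σ n) (Γ r) g (fun γ hγ => hc g hg γ hγ) (a j) x
    · refine LinearMap.ext fun x => ?_
      exact alg_comm (σ t) ρ (Γ r) f
        (fun g hg y => hf ⟨g, hΓL hg⟩ (Set.mem_univ _) y) (a j) x

/-- the conclusion for a group with a normal subgroup generated by commuting subgroups -/
theorem coEx_of_comm (T : ℕ) (h0 : ∀ x : D 0, ∃ y, d 0 y = x)
    (h1 : ∀ x : D 1, d 0 x = 0 → ∃ y, d 1 y = x) (Γ : ℕ → Subgroup Q) (m : ℕ)
    (hcomm : ∀ i j, i ≠ j → ∀ x ∈ Γ i, ∀ y ∈ Γ j, x * y = y * x)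
    (hU : ∀ r < m, Gen σ d ρ T (Γ r)) (hnor : (KK Γ m).Normal) (t : ℕ) (ht : t ≤ m + 1)
    (hT : t ≤ T) : CoEx σ d ρ (Set.univ : Set Q) t := by
  have h := claim σ d ρ hσ hdd hP T h0 h1 Γ m hcomm hU m le_rfl
  intro f hf hfd
  refine descent σ d (KK Γ m) hσ hdd (fun n => ?_) t M ρ
    (fun s hs => h s (by omega) (by omega)) f hf hfd
    (h t ht hT f (fun g _ x => hf g (Set.mem_univ g) x) hfd)
  exact hP Q (MonoidHom.id Q) Function.injective_id n

end

end Pool.Agent.Helper6K1.ZP
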