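import Pool.Agent.Helper6K1.ZP.Stm

/-!
The reduced C*-algebra of a subgroup is contained in the reduced C*-algebra of the group.
-/

set_option autoImplicit false
set_option linter.unusedSectionVars false

open scoped Matrix ENNReal InnerProductSpace
open Filter Topology

namespace Pool.Agent.Helper6K1.ZP

open Pool.Agent.H496R3.ZS (Ell dl dl_apply permIso orthonormal_dl)
open Pool.Agent.H919R4.ZS
open Pool.Agent.TH38.ZT
open Pool.Agent.Helper6K1.ZM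
open MonoidAlgebra (single)

noncomputable section

variable {Q : Type} [Group Q] (Γ : Subgroup Q)

/-- every element is `γ * T.out⁻¹` for a unique `γ` in the subgroup and a unique left coset `T` -/
def cosetEquiv : (Q ⧸ Γ) × Γ ≃ Q where
  toFun p := (p.2 : Q) * (p.1.out)⁻¹
  invFun q := (QuotientGroup.mk (s := Γ) q⁻¹, ⟨q * (QuotientGroup.mk (s := Γ) q⁻¹).out, by
    have h : QuotientGroup.mk (s := Γ) (QuotientGroup.mk (s := Γ) q⁻¹).out =
      QuotientGroup.mk (s := Γ) q⁻¹ := QuotientGroup.out_eq' _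
    have h2 := QuotientGroup.eq.1 h.symm
    rwa [inv_inv] at h2⟩)
  left_inv p := by
    obtain ⟨T, γ⟩ := p
    have h : QuotientGroup.mk (s := Γ) ((γ : Q) * (T.out)⁻¹)⁻¹ = T := by
      have h1 : (((γ : Q) * (T.out)⁻¹)⁻¹ : Q) = T.out * ((γ⁻¹ : Γ) : Q) := by
        simp
      conv_rhs => rw [← QuotientGroup.out_eq' T]
      rw [h1]
      exact QuotientGroup.mk_mul_of_mem _ (γ⁻¹).2
    refine Prod.ext h ?_
    refine Subtype.ext ?_
    change (γ : Q) * (T.out)⁻¹ * (QuotientGroup.mk (s := Γ) ((γ : Q) * (T.out)⁻¹)⁻¹).out = γ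
    rw [h]
    simp
  right_inv q := by
    change q * (QuotientGroup.mk (s := Γ) q⁻¹).out * ((QuotientGroup.mk (s := Γ) q⁻¹).out)⁻¹ = q
    simp

/-- the restriction of a function to a right coset of the subgroup -/
def slice (t : Q) (v : L2 Q) : L2 Γ := ⟨fun γ => v ((γ : Q) * t), by
  change Memℓp (fun γ : Γ => v ((γ : Q) * t)) 2
  have h2 : 0 < (2 : ℝ≥0∞).toReal := by norm_num
  have hv := lp.memℓp v
  rw [memℓp_gen_iff h2] at hv ⊢
  refine hv.comp_injective (i := fun γ : Γ => (γ : Q) * t) ?_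
  intro a b hab
  exact Subtype.ext (mul_right_cancel hab)⟩

lemma slice_apply (t : Q) (v : L2 Q) (γ : Γ) : slice Γ t v γ = v ((γ : Q) * t) := rfl

lemma norm_sq_eq {Z : Type} (v : Ell Z) : ‖v‖ ^ 2 = ∑' z, ‖v z‖ ^ 2 := by
  have h := lp.norm_rpow_eq_tsum (p := 2) (by norm_num) v
  simpa using h

lemma summable_norm_sq {Z : Type} (v : Ell Z) : Summable fun z => ‖v z‖ ^ 2 := by
  have h2 : 0 < (2 : ℝ≥0∞).toReal := by norm_num
  have hv := lp.memℓp v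
  rw [memℓp_gen_iff h2] at hv
  simpa using hv

lemma summable_slice (v : L2 Q) :
    Summable fun T : Q ⧸ Γ => ‖slice Γ (T.out)⁻¹ v‖ ^ 2 := by
  have h1 : Summable fun p : (Q ⧸ Γ) × Γ => ‖v (cosetEquiv Γ p)‖ ^ 2 :=
    (cosetEquiv Γ).summable_iff.2 (summable_norm_sq v)
  have h2 := h1.prod
  refine h2.congr fun T => ?_
  rw [norm_sq_eq]
  rfl

lemma norm_sq_slice (v : L2 Q) :
    ‖v‖ ^ 2 = ∑' T : Q ⧸ Γ, ‖slice Γ (T.out)⁻¹ v‖ ^ 2 := by
  have h1 : Summable fun p : (Q ⧸ Γ) × Γ => ‖v (cosetEquiv Γ p)‖ ^ 2 :=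
    (cosetEquiv Γ).summable_iff.2 (summable_norm_sq v)
  rw [norm_sq_eq, ← (cosetEquiv Γ).tsum_eq, h1.tsum_prod]
  refine tsum_congr fun T => ?_
  rw [norm_sq_eq]
  rfl

/-- the inclusion of the group rings -/
def incl : MonoidAlgebra ℂ Γ →ₐ[ℂ] MonoidAlgebra ℂ Q :=
  MonoidAlgebra.mapDomainAlgHom ℂ ℂ Γ.subtype

lemma incl_single (γ : Γ) (c : ℂ) : incl Γ (single γ c) = single (γ : Q) c := by
  change MonoidAlgebra.mapDomain _ _ = _
  rw [MonoidAlgebra.mapDomain_single]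
  rfl

lemma slice_LC (a : MonoidAlgebra ℂ Γ) (t : Q) (v : L2 Q) :
    slice Γ t (LC (incl Γ a) v) = LC a (slice Γ t v) := by
  refine MonoidAlgebra.induction_linear a ?_ ?_ ?_
  · rw [map_zero, map_zero, map_zero]
    rfl
  · intro x y hx hy
    rw [map_add, map_add, map_add, add_apply, add_apply, ← hx, ← hy]
    rfl
  · intro γ c
    rw [incl_single, LC_single, LC_single]
    ext δ
    change c * v ((γ : Q)⁻¹ * ((δ : Q) * t)) = c * v (((γ⁻¹ * δ : Γ) : Q) * t)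
    rw [Subgroup.coe_mul, Subgroup.coe_inv, mul_assoc]

/-- the norm inequality -/
lemma norm_incl_le (a : MonoidAlgebra ℂ Γ) : ‖(LC (incl Γ a) : L2 Q →L[ℂ] L2 Q)‖ ≤ ‖(LC a : L2 Γ →L[ℂ] L2 Γ)‖ := by
  refine ContinuousLinearMap.opNorm_le_bound _ (norm_nonneg _) fun v => ?_
  refine le_of_sq_le_sq ?_ (by positivity)
  rw [norm_sq_slice Γ, mul_pow, norm_sq_slice Γ v, ← tsum_mul_left]
  refine Summable.tsum_le_tsum (fun T => ?_) (summable_slice Γ _) ((summable_slice Γ v).mul_left _)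
  rw [slice_LC, ← mul_pow]
  gcongr
  exact (LC a).le_opNorm _

/-- the closure of the graph -/
def Gr : Subalgebra ℂ ((L2 Γ →L[ℂ] L2 Γ) × (L2 Q →L[ℂ] L2 Q)) :=
  ((LC : MonoidAlgebra ℂ Γ →ₐ[ℂ] (L2 Γ →L[ℂ] L2 Γ)).prod
    ((LC : MonoidAlgebra ℂ Q →ₐ[ℂ] (L2 Q →L[ℂ] L2 Q)).comp (incl Γ))).range.topologicalClosure

lemma Gr_closed {s : Set ((L2 Γ →L[ℂ] L2 Γ) × (L2 Q →L[ℂ] L2 Q))} (hs : IsClosed s)
    (h : ∀ a : MonoidAlgebra ℂ Γ, ((LC a : L2 Γ →L[ℂ] L2 Γ), (LC (incl Γ a) : L2 Q →L[ℂ] L2 Q)) ∈ s)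
    {p : (L2 Γ →L[ℂ] L2 Γ) × (L2 Q →L[ℂ] L2 Q)} (hp : p ∈ Gr Γ) : p ∈ s := by
  have h1 : (Gr Γ : Set ((L2 Γ →L[ℂ] L2 Γ) × (L2 Q →L[ℂ] L2 Q))) ⊆ s := by
    rw [Gr, Subalgebra.topologicalClosure_coe]
    refine closure_minimal ?_ hs
    rintro _ ⟨x, rfl⟩
    exact h x
  exact h1 hp

lemma Gr_norm {p : (L2 Γ →L[ℂ] L2 Γ) × (L2 Q →L[ℂ] L2 Q)} (hp : p ∈ Gr Γ) :
    ‖p.2‖ ≤ ‖p.1‖ :=
  Gr_closed Γ (s := {p | ‖p.2‖ ≤ ‖p.1‖}) (isClosed_le (by fun_prop) (by fun_prop))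
    (fun a => norm_incl_le Γ a) hp

lemma Gr_unique {a : L2 Γ →L[ℂ] L2 Γ} {b b' : L2 Q →L[ℂ] L2 Q} (h : (a, b) ∈ Gr Γ)
    (h' : (a, b') ∈ Gr Γ) : b = b' := by
  have h1 := Gr_norm Γ ((Gr Γ).sub_mem h h')
  simp only [Prod.mk_sub_mk, sub_self, norm_zero] at h1
  exact sub_eq_zero.1 (norm_le_zero_iff.1 h1)

lemma Gr_mem (a : MonoidAlgebra ℂ Γ) :
    ((LC a : L2 Γ →L[ℂ] L2 Γ), (LC (incl Γ a) : L2 Q →L[ℂ] L2 Q)) ∈ Gr Γ :=
  Subalgebra.le_topologicalClosure _ ⟨a, rfl⟩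

lemma Gr_exists (a : L2 Γ →L[ℂ] L2 Γ)
    (ha : a ∈ closure (Set.range (LC : MonoidAlgebra ℂ Γ →ₐ[ℂ] (L2 Γ →L[ℂ] L2 Γ)))) :
    ∃ b, (a, b) ∈ Gr Γ := by
  obtain ⟨s, hs, hlim⟩ := mem_closure_iff_seq_limit.1 ha
  choose x hx using hs
  have hcauchy : CauchySeq (fun n => (LC (incl Γ (x n)) : L2 Q →L[ℂ] L2 Q)) := by
    have h1 : CauchySeq s := hlim.cauchySeq
    rw [Metric.cauchySeq_iff] at h1 ⊢
    intro ε hε
    obtain ⟨N, hN⟩ := h1 ε hε
    refine ⟨N, fun i hi j hj => ?_⟩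
    have h2 := hN i hi j hj
    rw [dist_eq_norm] at h2 ⊢
    refine lt_of_le_of_lt ?_ h2
    rw [← map_sub, ← hx, ← hx, ← map_sub, ← map_sub]
    exact norm_incl_le Γ _
  obtain ⟨b, hb⟩ := cauchySeq_tendsto_of_complete hcauchy
  refine ⟨b, ?_⟩
  rw [← SetLike.mem_coe, Gr, Subalgebra.topologicalClosure_coe]
  refine mem_closure_of_tendsto (hlim.prodMk_nhds hb) (Eventually.of_forall fun n => ?_)
  refine ⟨x n, ?_⟩
  rw [← hx n]
  rfl

lemma valR_mem' {G : Type} [Group G] (x : RedC G) :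
    (valR x : L2 G →L[ℂ] L2 G) ∈ closure (Set.range (LC : MonoidAlgebra ℂ G →ₐ[ℂ] (L2 G →L[ℂ] L2 G))) := by
  have h : (Subtype.val (p := fun y => y ∈ redCstar G) x : Op G) ∈
    closure ((groupRing G : Subring (Op G)) : Set (Op G)) := Subtype.property x
  have h3 : groupRing G ≤ (show Subring (Op G) from
      (LC : MonoidAlgebra ℂ G →ₐ[ℂ] (L2 G →L[ℂ] L2 G)).toRingHom.range) := by
    refine Subring.closure_le.2 ?_
    rintro _ ⟨c, g, rfl⟩
    refine ⟨MonoidAlgebra.single g c, ?_⟩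
    change LC (MonoidAlgebra.single g c) = _
    rw [LC_single]
    rfl
  have h2 : ((groupRing G : Subring (Op G)) : Set (Op G)) ⊆
    (show Set (Op G) from Set.range (LC : MonoidAlgebra ℂ G →ₐ[ℂ] (L2 G →L[ℂ] L2 G))) :=
    fun y hy => h3 hy
  exact closure_mono h2 h

lemma Gr_range {p : (L2 Γ →L[ℂ] L2 Γ) × (L2 Q →L[ℂ] L2 Q)} (hp : p ∈ Gr Γ) :
    p.2 ∈ Set.range (valR : RedC Q → (L2 Q →L[ℂ] L2 Q)) :=
  Gr_closed Γ (s := {p | p.2 ∈ Set.range (valR : RedC Q → (L2 Q →L[ℂ] L2 Q))})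
    (isClosed_range_valR.preimage continuous_snd)
    (fun a => ⟨toC (incl Γ a), valR_toC _⟩) hp

lemma incl_comm (q : Q) (hq : ∀ γ ∈ Γ, q * γ = γ * q) (a : MonoidAlgebra ℂ Γ) :
    incl Γ a * single q 1 = single q 1 * incl Γ a := by
  refine MonoidAlgebra.induction_linear a ?_ ?_ ?_
  · rw [map_zero, zero_mul, mul_zero]
  · intro x y hx hy
    rw [map_add, add_mul, mul_add, hx, hy]
  · intro γ c
    rw [incl_single, MonoidAlgebra.single_mul_single, MonoidAlgebra.single_mul_single,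
      hq γ γ.2, mul_one, one_mul]

lemma Gr_comm (q : Q) (hq : ∀ γ ∈ Γ, q * γ = γ * q)
    {p : (L2 Γ →L[ℂ] L2 Γ) × (L2 Q →L[ℂ] L2 Q)} (hp : p ∈ Gr Γ) :
    p.2 * LC (single q 1) = LC (single q 1) * p.2 :=
  Gr_closed Γ (s := {p | p.2 * LC (single q 1) = LC (single q 1) * p.2})
    (isClosed_eq (continuous_snd.mul continuous_const) (continuous_const.mul continuous_snd))
    (fun a => by
      change (LC (incl Γ a) : L2 Q →L[ℂ] L2 Q) * LC (single q 1) = LC (single q 1) * LC (incl Γ a)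
      rw [← map_mul, ← map_mul, incl_comm Γ q hq]) hp

theorem t_subRed : SubRed := by
  intro Q _ Γ
  have key : ∀ x : RedC Γ, ∃ y : RedC Q, (valR x, valR y) ∈ Gr Γ := by
    intro x
    obtain ⟨b, hb⟩ := Gr_exists Γ _ (valR_mem' x)
    obtain ⟨y, hy⟩ := Gr_range Γ hb
    refine ⟨y, ?_⟩
    rw [hy]
    exact hb
  choose t ht using key
  have huniq : ∀ (x : RedC Γ) (y : RedC Q), (valR x, valR y) ∈ Gr Γ → t x = y := fun x y h =>
    valR_inj (Gr_unique Γ (ht x) h)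
  have hadd : ∀ a b, t (a + b) = t a + t b := by
    intro a b
    refine huniq _ _ ?_
    rw [map_add, map_add]
    exact (Gr Γ).add_mem (ht a) (ht b)
  have hmul : ∀ a b, t (a * b) = t a * t b := by
    intro a b
    refine huniq _ _ ?_
    rw [map_mul, map_mul]
    exact (Gr Γ).mul_mem (ht a) (ht b)
  have hone : t 1 = 1 := by
    refine huniq _ _ ?_
    rw [map_one, map_one]
    exact (Gr Γ).one_mem
  have hzero : t 0 = 0 := by
    refine huniq _ _ ?_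
    rw [map_zero, map_zero]
    exact (Gr Γ).zero_mem
  refine ⟨⟨⟨⟨t, hone⟩, hmul⟩, hzero, hadd⟩, ?_, ?_⟩
  · intro γ c
    change t (toC (single γ c)) = toC (single (γ : Q) c)
    refine huniq _ _ ?_
    rw [valR_toC, valR_toC, ← incl_single]
    exact Gr_mem Γ _
  · intro q hq x
    change t x * toC (single q 1) = toC (single q 1) * t x
    refine valR_inj ?_
    rw [map_mul, map_mul, valR_toC]
    exact Gr_comm Γ q hq (ht x)

end

end Pool.Agent.Helper6K1.ZP
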