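import Pool.Agent.Helper6K1.ZP.Cone
import Pool.Agent.Helper6K1.ZP.Cof
import Pool.Agent.Helper6K1.ZP.SubRed
import Pool.Agent.Helper6K1.ZM.Main

/-!
Extensions with amenable kernel over groups with commuting nonamenable subgroups.
-/

set_option autoImplicit false
set_option linter.unusedSectionVars false

open scoped Matrix

namespace Pool.Agent.Helper6K1.ZP

open Pool.Agent.H919R4.ZS MonoidAlgebra Pool.Agent.TH38.ZT Pool.Agent.R807.ZK
open Pool.Agent.Helper6K1.ZM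

noncomputable section

/-! ### rational exactness -/

section rational

variable {Q : Type} [Group Q]

lemma rat_vec {a b : ℕ} (z : Fin a → MonoidAlgebra ℤ Q)
    (M : Matrix (Fin a) (Fin b) (MonoidAlgebra ℤ Q)) :
    (fun j => rat Q ((z ᵥ* M) j)) = (fun k => rat Q (z k)) ᵥ* M.map (rat Q) := vmap (rat Q) z M

lemma rat_vec_inj {a : ℕ} {x y : Fin a → MonoidAlgebra ℤ Q}
    (h : (fun j => rat Q (x j)) = fun j => rat Q (y j)) : x = y := by
  funext j
  exact rat_inj (congrFun h j)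

lemma inv_smul_zsmul {V : Type} [AddCommGroup V] [Module ℚ V] {c : ℤ} (hc : c ≠ 0) (v : V) :
    ((c : ℚ)⁻¹) • (c • v) = v := by
  rw [← Int.cast_smul_eq_zsmul ℚ c v, smul_smul, inv_mul_cancel₀ (by exact_mod_cast hc), one_smul]

/-- rational exactness of a resolution -/
lemma rat_exact (Y : FinRes Q) (n : ℕ) (z : Fin (Y.n (n + 1)) → MonoidAlgebra ℚ Q)
    (hz : z ᵥ* (Y.d n).map (rat Q) = 0) : ∃ w, w ᵥ* (Y.d (n + 1)).map (rat Q) = z := by
  obtain ⟨c, hc, z', hz'⟩ := clear z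
  have h1 : (fun k => rat Q (z' k)) = c • z := funext hz'
  have h2 : z' ᵥ* Y.d n = 0 := by
    refine rat_vec_inj ?_
    rw [rat_vec, h1, Matrix.smul_vecMul, hz, smul_zero]
    funext j
    exact (map_zero _).symm
  obtain ⟨y, hy⟩ := (Y.exact_succ n z').1 h2
  refine ⟨((c : ℚ)⁻¹) • fun k => rat Q (y k), ?_⟩
  rw [Matrix.smul_vecMul, ← rat_vec, hy, h1, inv_smul_zsmul hc]

end rational

section cone

variable {G Q : Type} [Group G] [Group Q] (X : FinRes G) (Y : FinRes Q) (f : G →* Q)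

/-- the shifted ranks -/
def cs : ℕ → ℕ
  | 0 => 0
  | n + 1 => X.n n

/-- the shifted differentials -/
def ds : ∀ n, Matrix (Fin (cs X (n + 1))) (Fin (cs X n)) (MonoidAlgebra ℚ Q)
  | 0 => 0
  | n + 1 => (X.d n).map ((rat Q).comp (gmap f))

lemma aug_exact (hf : Function.Surjective f) (x : Fin (X.n 0) → MonoidAlgebra ℤ Q)
    (hx : ∑ j, augm Q (x j) * X.aug j = 0) : ∃ y, y ᵥ* (X.d 0).map (gmap f) = x := by
  choose x' hx' using fun j => gmap_surj f hf (x j)
  have h1 : ∑ j, augm G (x' j) * X.aug j = 0 := by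
    rw [← hx]
    refine Finset.sum_congr rfl fun j _ => ?_
    rw [← hx' j, augm_gmap]
  obtain ⟨y, hy⟩ := (X.exact_zero x').1 h1
  refine ⟨fun k => gmap f (y k), ?_⟩
  rw [← vmap, hy]
  funext j
  exact hx' j

variable {X Y f}

/-- surjectivity in degree zero -/
lemma cone_s0 {E : Matrix (Fin (X.n 0)) (Fin (Y.n 0)) (MonoidAlgebra ℤ Q)}
    (hE : ∀ k, eps Y (E k) = X.aug k) (y : Fin (Y.n 0) → MonoidAlgebra ℚ Q) :
    ∃ (y' : Fin (Y.n 1) → MonoidAlgebra ℚ Q) (c : Fin (X.n 0) → MonoidAlgebra ℚ Q),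
      y' ᵥ* (Y.d 0).map (rat Q) + c ᵥ* E.map (rat Q) = y := by
  obtain ⟨c, hc, y', hy'⟩ := clear y
  have h1 : (fun k => rat Q (y' k)) = c • y := funext hy'
  obtain ⟨x0, hx0⟩ := X.surj
  -- an element of the group ring of `Q` with augmentation one
  have hx1 : ∑ k, augm Q (single 1 (augm G (x0 k))) * X.aug k = 1 := by
    rw [← hx0]
    refine Finset.sum_congr rfl fun k _ => ?_
    rw [augm_single]
  let x1 : Fin (X.n 0) → MonoidAlgebra ℤ Q := fun k => single 1 (augm G (x0 k))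
  have h2 : eps Y (y' - (eps Y y' • x1) ᵥ* E) = 0 := by
    have h3 : eps Y ((eps Y y' • x1) ᵥ* E) = eps Y y' := by
      rw [eps_vecMul]
      have h4 : ∀ k, augm Q ((eps Y y' • x1) k) * eps Y (E k) =
          eps Y y' * (augm Q (x1 k) * X.aug k) := by
        intro k
        rw [hE, Pi.smul_apply, map_zsmul, smul_eq_mul, mul_assoc]
      rw [Finset.sum_congr rfl fun k _ => h4 k, ← Finset.mul_sum, hx1, mul_one]
    have h5 := eps_add Y (y' - (eps Y y' • x1) ᵥ* E) ((eps Y y' • x1) ᵥ* E)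
    rw [sub_add_cancel, h3] at h5
    omega
  obtain ⟨v, hv⟩ := (Y.exact_zero _).1 h2
  refine ⟨((c : ℚ)⁻¹) • fun k => rat Q (v k),
    ((c : ℚ)⁻¹) • fun k => rat Q ((eps Y y' • x1) k), ?_⟩
  rw [Matrix.smul_vecMul, Matrix.smul_vecMul, ← rat_vec, ← rat_vec, hv, ← smul_add]
  have h6 : (fun j => rat Q ((y' - (eps Y y' • x1) ᵥ* E) j)) +
      (fun j => rat Q (((eps Y y' • x1) ᵥ* E) j)) = c • y := by
    rw [← h1]
    funext j
    change rat Q (y' j - ((eps Y y' • x1) ᵥ* E) j) + rat Q (((eps Y y' • x1) ᵥ* E) j) = rat Q (y' j)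
    rw [map_sub, sub_add_cancel]
  rw [h6, inv_smul_zsmul hc]

/-- exactness in degree one -/
lemma cone_s1 (hf : Function.Surjective f)
    {E : Matrix (Fin (X.n 0)) (Fin (Y.n 0)) (MonoidAlgebra ℤ Q)}
    (hE : ∀ k, eps Y (E k) = X.aug k) (y : Fin (Y.n 1) → MonoidAlgebra ℚ Q)
    (c : Fin (X.n 0) → MonoidAlgebra ℚ Q)
    (h : y ᵥ* (Y.d 0).map (rat Q) + c ᵥ* E.map (rat Q) = 0) :
    ∃ c', c' ᵥ* (X.d 0).map ((rat Q).comp (gmap f)) = c := by
  obtain ⟨a, ha, y', hy'⟩ := clear y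
  obtain ⟨b, hb, c', hc'⟩ := clear c
  have h1 : (fun k => rat Q (y' k)) = a • y := funext hy'
  have h2 : (fun k => rat Q (c' k)) = b • c := funext hc'
  have h3 : (b • y') ᵥ* Y.d 0 + (a • c') ᵥ* E = 0 := by
    refine rat_vec_inj ?_
    have h4 : (fun j => rat Q (((b • y') ᵥ* Y.d 0 + (a • c') ᵥ* E) j)) =
        (fun j => rat Q (((b • y') ᵥ* Y.d 0) j)) + fun j => rat Q (((a • c') ᵥ* E) j) := by
      funext j
      exact map_add _ _ _
    have h5 : (fun k => rat Q ((b • y') k)) = b • a • y := by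
      rw [← h1]
      funext k
      exact map_zsmul _ _ _
    have h6 : (fun k => rat Q ((a • c') k)) = b • a • c := by
      rw [smul_comm, ← h2]
      funext k
      exact map_zsmul _ _ _
    rw [h4, rat_vec, rat_vec, h5, h6, Matrix.smul_vecMul, Matrix.smul_vecMul, Matrix.smul_vecMul,
      Matrix.smul_vecMul, ← smul_add, ← smul_add, h, smul_zero, smul_zero]
    funext j
    exact (map_zero _).symm
  have h7 : ∑ k, augm Q ((a • c') k) * X.aug k = 0 := by
    have h8 := congrArg (eps Y) h3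
    have h9 := eps_add Y ((b • y') ᵥ* Y.d 0) ((a • c') ᵥ* E)
    rw [eps_d, zero_add, h8, eps_vecMul] at h9
    have h10 : eps Y (0 : Fin (Y.n 0) → MonoidAlgebra ℤ Q) = 0 := by
      simp [eps]
    rw [h10] at h9
    rw [h9]
    exact Finset.sum_congr rfl fun k _ => by rw [hE]
  obtain ⟨w, hw⟩ := aug_exact X f hf _ h7
  have hab : a * b ≠ 0 := mul_ne_zero ha hb
  refine ⟨(((a * b : ℤ) : ℚ)⁻¹) • fun k => rat Q (w k), ?_⟩
  have h11 : (fun k => rat Q (w k)) ᵥ* (X.d 0).map ((rat Q).comp (gmap f)) = (a * b) • c := by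
    have h12 : (X.d 0).map ((rat Q).comp (gmap f)) = ((X.d 0).map (gmap f)).map (rat Q) := rfl
    rw [h12, ← rat_vec, hw, mul_smul, ← h2]
    funext k
    exact map_zsmul _ _ _
  rw [Matrix.smul_vecMul, h11, inv_smul_zsmul hab]

end cone

end

end Pool.Agent.Helper6K1.ZP
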