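import Pool.Agent.Helper6K1.ZP.Concl
import Pool.Agent.Helper35.KS.Kesten

/-!
Extensions with amenable kernel over groups with commuting nonamenable subgroups: the conclusion.
-/

set_option autoImplicit false
set_option linter.unusedSectionVars false

open scoped Matrix

namespace Pool.Agent.Helper6K1.ZP

open Pool.Agent.H919R4.ZS MonoidAlgebra Pool.Agent.TH38.ZT Pool.Agent.R807.ZK
open Pool.Agent.Helper6K1.ZM
open Pool.Agent.H496R3.ZS (IsAmenable)

noncomputable section

section general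

variable {Q : Type} [Group Q]

variable (Q) in
/-- the rational group algebra in the reduced C*-algebra -/
def kap : MonoidAlgebra ℚ Q →+* RedC Q := toC.comp (cpx Q)

lemma kap_single (q : Q) (c : ℚ) : kap Q (single q c) = toC (single q (c : ℂ)) := by
  rw [kap, RingHom.comp_apply, cpx_single]

/-- the inclusion of group algebras -/
def inclQ (Γ : Subgroup Q) : MonoidAlgebra ℚ Γ →ₐ[ℚ] MonoidAlgebra ℚ Q :=
  MonoidAlgebra.lift ℚ _ Γ ((MonoidAlgebra.of ℚ Q).comp Γ.subtype)

lemma inclQ_single (Γ : Subgroup Q) (γ : Γ) (c : ℚ) :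
    inclQ Γ (single γ c) = c • single (γ : Q) 1 := by
  rw [inclQ, MonoidAlgebra.lift_single]
  rfl

lemma alg_lm (Γ : Subgroup Q) {V : Type} [AddCommGroup V] [Module ℚ V]
    [Module (MonoidAlgebra ℚ Q) V] [IsScalarTower ℚ (MonoidAlgebra ℚ Q) V]
    (a : MonoidAlgebra ℚ Γ) (x : V) : alg (lm V) Γ a x = inclQ Γ a • x := by
  refine induction_linear a ?_ ?_ ?_
  · rw [map_zero, map_zero, zero_smul, LinearMap.zero_apply]
  · intro y z hy hz
    rw [map_add, map_add, add_smul, LinearMap.add_apply, hy, hz]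
  · intro g c
    rw [alg_single, inclQ_single, lm_apply, smul_assoc]

theorem gen_of (Γ : Subgroup Q) (hna : ¬ IsAmenable Γ) {D : ℕ → Type} [∀ n, AddCommGroup (D n)]
    [∀ n, Module ℚ (D n)] (σ : ∀ n, Representation ℚ Q (D n)) (d : ∀ n, D (n + 1) →ₗ[ℚ] D n)
    (T : ℕ) (hcof : Cof {a : MonoidAlgebra ℚ Γ | ∀ t ≤ T, Kill d (fun n => alg (σ n) Γ a) t})
    (M : Type) [AddCommGroup M] [Module ℚ M] [Module (RedC Q) M]
    (hκ : ∀ (c : ℚ) (m : M), kap Q (algebraMap ℚ (MonoidAlgebra ℚ Q) c) • m = c • m) :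
    Gen σ d (repM (kap Q) hκ) T Γ := by
  obtain ⟨θ, hθ1, hθ2⟩ := t_subRed Q _ Γ
  have h := span_of_cof (Pool.Agent.Helper6K1.ZP.t_kesten Γ _ hna) hcof
  rw [Submodule.mem_span_set'] at h
  obtain ⟨p, f, g, hfg⟩ := h
  choose a ha hag using fun j => (g j).2
  have halg : ∀ (c : MonoidAlgebra ℚ Γ) (m : M),
      alg (repM (kap Q) hκ) Γ c m = θ (toC (cpx Γ c)) • m := by
    intro c m
    refine induction_linear c ?_ ?_ ?_
    · rw [map_zero, map_zero, map_zero, map_zero, zero_smul, LinearMap.zero_apply]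
    · intro y z hy hz
      rw [map_add, map_add, map_add, map_add, add_smul, LinearMap.add_apply, hy, hz]
    · intro γ c
      rw [alg_single, repM_apply, cpx_single, hθ1, ← kap_single, ← hκ, smul_smul, ← map_mul,
        ← Algebra.smul_def, smul_single, smul_eq_mul, mul_one]
  refine ⟨p, fun j => (DistribSMul.toAddMonoidHom M (θ (f j))).toRatLinearMap, a, ?_, ha, ?_⟩
  · intro j q hq x
    change θ (f j) • kap Q (single q 1) • x = kap Q (single q 1) • θ (f j) • x
    rw [smul_smul, smul_smul, kap_single, Rat.cast_one, hθ2 q hq]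
  · refine LinearMap.ext fun m => ?_
    rw [LinearMap.sum_apply, LinearMap.id_apply]
    have h1 : ∀ j, ((DistribSMul.toAddMonoidHom M (θ (f j))).toRatLinearMap ∘ₗ
        alg (repM (kap Q) hκ) Γ (a j)) m = (θ (f j * (g j : RedC Γ))) • m := by
      intro j
      rw [LinearMap.comp_apply, halg, map_mul, ← hag j]
      exact smul_smul _ _ _
    rw [Finset.sum_congr rfl fun j _ => h1 j, ← Finset.sum_smul, ← map_sum]
    have h2 : ∑ j, f j * (g j : RedC Γ) = 1 := hfg
    rw [h2, map_one, one_smul]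

end general

variable {G : Type} [Group G] (N : Subgroup G) [N.Normal]

theorem main (hN : IsAmenable N) (X : FinRes G) (Y : FinRes (G ⧸ N)) (r : ℕ)
    (hfin : ∀ q, 1 ≤ q → q ≤ r → FinDim X (toRat N) q) (Γ : ℕ → Subgroup (G ⧸ N)) (m : ℕ)
    (hcomm : ∀ i j, i ≠ j → ∀ x ∈ Γ i, ∀ y ∈ Γ j, x * y = y * x)
    (hna : ∀ k < m, ¬ IsAmenable (Γ k)) (hnor : (KK Γ m).Normal) (hr : r ≤ m)
    (hX : ∀ j ≤ r + 1, Subsingleton (X.homology (toRed G) j)) :
    ExAt Y (toRed (G ⧸ N)) (r + 1) := by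
  set Q := G ⧸ N with hQ
  let f : G →* Q := QuotientGroup.mk' N
  have hf : Function.Surjective f := QuotientGroup.mk'_surjective N
  obtain ⟨E, hE0, hE⟩ := fwd X Y (gmap f) (augm_gmap f)
  let dY : ∀ n, Matrix (Fin (Y.n (n + 1))) (Fin (Y.n n)) (MonoidAlgebra ℚ Q) :=
    fun n => (Y.d n).map (rat Q)
  let F : ∀ n, Matrix (Fin (cs X (n + 1))) (Fin (Y.n n)) (MonoidAlgebra ℚ Q) :=
    fun n => (E n).map (rat Q)
  have hY2 : ∀ n, dY (n + 1) * dY n = 0 := by
    intro n
    change (Y.d (n + 1)).map (rat Q) * (Y.d n).map (rat Q) = 0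
    rw [← Matrix.map_mul, d_mul_d]
    ext; simp
  have hC2 : ∀ n, ds X f (n + 1) * ds X f n = 0 := by
    intro n
    cases n with
    | zero => exact Matrix.ext fun i j => Fin.elim0 j
    | succ n =>
      change (X.d (n + 1)).map ((rat Q).comp (gmap f)) * (X.d n).map ((rat Q).comp (gmap f)) = 0
      rw [← Matrix.map_mul, d_mul_d]
      ext; simp
  have hF2 : ∀ n, ds X f (n + 1) * F n = F (n + 1) * dY n := by
    intro n
    change ((X.d n).map (gmap f)).map (rat Q) * (E n).map (rat Q) =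
      (E (n + 1)).map (rat Q) * (Y.d n).map (rat Q)
    rw [← Matrix.map_mul, ← Matrix.map_mul, hE]
  have hYe : ∀ n (z : Fin (Y.n (n + 1)) → MonoidAlgebra ℚ Q), z ᵥ* dY n = 0 →
      ∃ w, w ᵥ* dY (n + 1) = z := rat_exact Y
  -- degree zero and one
  have h0 : ∀ x : DD ℚ Q Y.n (cs X) 0, ∃ y, dD dY (ds X f) F 0 y = x := by
    rintro ⟨y, c⟩
    obtain ⟨y', c', h⟩ := cone_s0 hE0 y
    refine ⟨(y', c'), Prod.ext h ?_⟩
    exact funext fun j => Fin.elim0 j
  have hk1 : ∀ (x : DD ℚ Q Y.n (cs X) 1), dD dY (ds X f) F 0 x = 0 →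
      ∃ y, dD dY (ds X f) F 1 y = x := by
    intro x hx
    obtain ⟨y, hy⟩ := cone_kill dY (ds X f) F hF2 hYe 0 1 (fun y c _ h => by
      obtain ⟨c', hc'⟩ := cone_s1 hf hE0 y c h
      exact ⟨c', by rw [one_smul]; exact hc'⟩) x hx
    exact ⟨y, by rw [hy, one_smul]⟩
  -- the annihilators
  have hcof : ∀ Γ' : Subgroup Q, Cof {a : MonoidAlgebra ℚ Γ' | ∀ t ≤ r + 1,
      Kill (dD dY (ds X f) F) (fun n => alg (lm (DD ℚ Q Y.n (cs X) n)) Γ' a) t} := by
    intro Γ'
    have h1 : ∀ p ≤ r, Cof {a : MonoidAlgebra ℚ Q | ∀ n < p, ∀ z ∈ X.cyc (toRat N) (n + 1),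
        a • z ∈ LinearMap.range (X.del (toRat N) (n + 1))} := by
      intro p
      induction p with
      | zero => exact fun _ => Cof.univ.mono fun a _ n hn => absurd hn (Nat.not_lt_zero n)
      | succ p ih =>
        intro hp
        refine ((ih (by omega)).inter (cof_of_finDim X (toRat N) (p + 1)
          (hfin (p + 1) (by omega) hp))).mono ?_
        rintro a ⟨ha, ha'⟩ n hn
        rcases Nat.lt_succ_iff_lt_or_eq.1 hn with h | rfl
        · exact ha n h
        · exact ha'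
    refine ((h1 r le_rfl).comap (inclQ Γ').toLinearMap).mono ?_
    intro a ha t ht
    have ha' : ∀ n < r, ∀ z ∈ X.cyc (toRat N) (n + 1),
        inclQ Γ' a • z ∈ LinearMap.range (X.del (toRat N) (n + 1)) := ha
    cases t with
    | zero => exact fun x => h0 _
    | succ t =>
      intro x hx
      change ∃ y, dD dY (ds X f) F (t + 1) y = alg (lm (DD ℚ Q Y.n (cs X) (t + 1))) Γ' a x
      rw [alg_lm]
      cases t with
      | zero =>
        obtain ⟨y, rfl⟩ := hk1 x hx
        exact ⟨inclQ Γ' a • y, dD_smul _ _ _ _ _ _⟩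
      | succ t =>
        refine cone_kill dY (ds X f) F hF2 hYe (t + 1) (inclQ Γ' a) (fun y c hc _ => ?_) x hx
        obtain ⟨c', hc'⟩ := ha' t (by omega) c hc
        exact ⟨c', hc'⟩
  -- the contraction
  have hXi := coeff N hN X (r + 1) (fun j hj => (exAt_iff X _ j).2 (hX j hj))
  obtain ⟨s, -, hs⟩ := contraction' X (toQuot N) (r + 1) hXi
  have hmapY : ∀ n, (dY n).map (kap Q) = (Y.d n).map (toRed Q) := by
    intro n
    refine Matrix.ext fun i j => ?_
    exact toC_cpx _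
  have hmapX : ∀ n, (ds X f (n + 1)).map (kap Q) = (X.d n).map (toQuot N) := by
    intro n
    refine Matrix.ext fun i j => ?_
    exact toC_cpx _
  intro x hx
  rw [← hmapY]
  refine cone_final (kap Q) dY (ds X f) F hF2 r (s r) (s (r + 1)) ?_ ?_ x (by rw [hmapY]; exact hx)
  · rw [hmapX, hmapX]
    exact hs r le_rfl
  · intro M _ _ _ hκ
    refine coEx_of_comm (fun n => lm (DD ℚ Q Y.n (cs X) n)) (dD dY (ds X f) F) (repM (kap Q) hκ)
      (fun n g x => dD_eqv _ _ _ n g x) (fun n x => dD_dD _ _ _ hY2 hC2 hF2 n x)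
      (fun H _ j hj n => proj_prod H j (proj_free _ H j hj) (proj_free _ H j hj)) (r + 1) h0 hk1
      Γ m hcomm (fun k hk => gen_of (Γ k) (hna k hk) _ _ (r + 1) (hcof (Γ k)) M hκ) hnor (r + 1)
      (by omega) le_rfl

end

end Pool.Agent.Helper6K1.ZP
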