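import Pool.Agent.Helper6K1.ZP.Free

/-!
The mapping cone, and the passage from the cohomology with coefficients in modules to the homology.
-/

set_option autoImplicit false
set_option linter.unusedSectionVars false

open scoped Matrix

namespace Pool.Agent.Helper6K1.ZP

open LinearMap MonoidAlgebra

noncomputable section

variable {k : Type} [CommRing k] {Q : Type} [Group Q] {S : Type} [Ring S]
  (κ : MonoidAlgebra k Q →+* S)

lemma vmap' {R T : Type} [Ring R] [Ring T] (ψ : R →+* T) {a b : ℕ} (w : Fin a → R)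
    (M : Matrix (Fin a) (Fin b) R) :
    (fun j => ψ ((w ᵥ* M) j)) = (fun i => ψ (w i)) ᵥ* M.map ψ := by
  funext j
  simp [Matrix.vecMul, dotProduct, map_sum]

section rep

variable {M : Type} [AddCommGroup M] [Module k M] [Module S M]
  (hκ : ∀ (c : k) (m : M), κ (algebraMap k (MonoidAlgebra k Q) c) • m = c • m)

/-- a module over `S` as a representation -/
def repM : Representation k Q M where
  toFun q :=
    { toFun := fun m => κ (single q 1) • m
      map_add' := fun x y => smul_add _ x y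
      map_smul' := fun c m => by
        rw [← hκ, ← hκ, smul_smul, smul_smul, ← map_mul, ← map_mul, Algebra.commutes]
        rfl }
  map_one' := by
    refine LinearMap.ext fun x => ?_
    change κ (single 1 1) • x = x
    rw [← MonoidAlgebra.one_def, map_one, one_smul]
  map_mul' p q := by
    refine LinearMap.ext fun x => ?_
    change κ (single (p * q) 1) • x = κ (single p 1) • κ (single q 1) • x
    rw [smul_smul, ← map_mul, MonoidAlgebra.single_mul_single, mul_one]

lemma repM_apply (q : Q) (m : M) : repM κ hκ q m = κ (single q 1) • m := rfl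

/-- equivariant maps into `M` are semilinear -/
lemma semilin {V : Type} [AddCommGroup V] [Module k V] [Module (MonoidAlgebra k Q) V]
    [IsScalarTower k (MonoidAlgebra k Q) V] (f : V →ₗ[k] M)
    (hf : Eqv Set.univ (lm V) (repM κ hκ) f) (a : MonoidAlgebra k Q) (x : V) :
    f (a • x) = κ a • f x := by
  refine MonoidAlgebra.induction_linear a ?_ ?_ ?_
  · rw [zero_smul, map_zero, map_zero, zero_smul]
  · intro y z hy hz
    rw [add_smul, map_add, map_add, add_smul, hy, hz]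
  · intro g c
    have h1 : (single g c : MonoidAlgebra k Q) = algebraMap k _ c * single g 1 := by
      rw [← Algebra.smul_def, smul_single, smul_eq_mul, mul_one]
    rw [h1, map_mul, mul_smul, mul_smul, hκ, algebraMap_smul, map_smul]
    congr 1
    exact hf g (Set.mem_univ g) x

/-- linear maps given by matrices -/
def LL {a b : ℕ} (mk : (Fin b → S) →ₗ[S] M) (T : Matrix (Fin a) (Fin b) S) :
    (Fin a → MonoidAlgebra k Q) →ₗ[k] M where
  toFun y := mk ((fun j => κ (y j)) ᵥ* T)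
  map_add' x y := by
    rw [← map_add, ← Matrix.add_vecMul]
    congr 2
    funext j
    exact map_add κ _ _
  map_smul' c y := by
    have h1 : (fun j => κ ((c • y) j)) =
        κ (algebraMap k (MonoidAlgebra k Q) c) • fun j => κ (y j) := by
      funext j
      change κ (c • y j) = κ (algebraMap k (MonoidAlgebra k Q) c) * κ (y j)
      rw [Algebra.smul_def, map_mul]
    rw [h1, Matrix.smul_vecMul, map_smul, hκ]
    rfl

lemma LL_apply {a b : ℕ} (mk : (Fin b → S) →ₗ[S] M) (T : Matrix (Fin a) (Fin b) S)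
    (y : Fin a → MonoidAlgebra k Q) : LL κ hκ mk T y = mk ((fun j => κ (y j)) ᵥ* T) := rfl

lemma LL_eqv {a b : ℕ} (mk : (Fin b → S) →ₗ[S] M) (T : Matrix (Fin a) (Fin b) S) :
    Eqv Set.univ (lm _) (repM κ hκ) (LL κ hκ mk T) := by
  intro q _ x
  rw [LL_apply, LL_apply, repM_apply, ← map_smul, ← Matrix.smul_vecMul]
  congr 2
  funext j
  exact map_mul κ _ _

end rep

/-! ### the cone -/

variable {yn cs : ℕ → ℕ} (dY : ∀ n, Matrix (Fin (yn (n + 1))) (Fin (yn n)) (MonoidAlgebra k Q))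
  (ds : ∀ n, Matrix (Fin (cs (n + 1))) (Fin (cs n)) (MonoidAlgebra k Q))
  (F : ∀ n, Matrix (Fin (cs (n + 1))) (Fin (yn n)) (MonoidAlgebra k Q))

variable (k Q yn cs) in
/-- the modules of the cone -/
abbrev DD (n : ℕ) : Type :=
  (Fin (yn n) → MonoidAlgebra k Q) × (Fin (cs n) → MonoidAlgebra k Q)

/-- the differentials of the cone -/
def dD (n : ℕ) : DD k Q yn cs (n + 1) →ₗ[k] DD k Q yn cs n where
  toFun p := (p.1 ᵥ* dY n + p.2 ᵥ* F n, -(p.2 ᵥ* ds n))
  map_add' p q := by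
    refine Prod.ext ?_ ?_
    · change (p.1 + q.1) ᵥ* dY n + (p.2 + q.2) ᵥ* F n = _
      rw [Matrix.add_vecMul, Matrix.add_vecMul]
      exact add_add_add_comm _ _ _ _
    · change -((p.2 + q.2) ᵥ* ds n) = -(p.2 ᵥ* ds n) + -(q.2 ᵥ* ds n)
      rw [Matrix.add_vecMul, neg_add]
  map_smul' c p := by
    refine Prod.ext ?_ ?_
    · change (c • p.1) ᵥ* dY n + (c • p.2) ᵥ* F n = _
      rw [Matrix.smul_vecMul, Matrix.smul_vecMul]
      exact (smul_add _ _ _).symm
    · change -((c • p.2) ᵥ* ds n) = c • -(p.2 ᵥ* ds n)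
      rw [Matrix.smul_vecMul, smul_neg]

lemma dD_apply (n : ℕ) (y : Fin (yn (n + 1)) → MonoidAlgebra k Q)
    (c : Fin (cs (n + 1)) → MonoidAlgebra k Q) :
    dD dY ds F n (y, c) = (y ᵥ* dY n + c ᵥ* F n, -(c ᵥ* ds n)) := rfl

lemma dD_smul (n : ℕ) (a : MonoidAlgebra k Q) (p : DD k Q yn cs (n + 1)) :
    dD dY ds F n (a • p) = a • dD dY ds F n p := by
  obtain ⟨y, c⟩ := p
  refine Prod.ext ?_ ?_
  · change (a • y) ᵥ* dY n + (a • c) ᵥ* F n = a • (y ᵥ* dY n + c ᵥ* F n)
    rw [Matrix.smul_vecMul, Matrix.smul_vecMul, smul_add]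
  · change -((a • c) ᵥ* ds n) = a • -(c ᵥ* ds n)
    rw [Matrix.smul_vecMul, smul_neg]

lemma dD_eqv (n : ℕ) (q : Q) (p : DD k Q yn cs (n + 1)) :
    dD dY ds F n ((lm _ : Representation k Q _) q p) =
      (lm _ : Representation k Q _) q (dD dY ds F n p) := dD_smul dY ds F n _ p

variable (hY : ∀ n, dY (n + 1) * dY n = 0) (hC : ∀ n, ds (n + 1) * ds n = 0)
  (hF : ∀ n, ds (n + 1) * F n = F (n + 1) * dY n)

include hY hC hF in
lemma dD_dD (n : ℕ) (p : DD k Q yn cs (n + 2)) :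
    dD dY ds F n (dD dY ds F (n + 1) p) = 0 := by
  obtain ⟨y, c⟩ := p
  rw [dD_apply, dD_apply]
  refine Prod.ext ?_ ?_
  · change (y ᵥ* dY (n + 1) + c ᵥ* F (n + 1)) ᵥ* dY n + (-(c ᵥ* ds (n + 1))) ᵥ* F n = 0
    rw [Matrix.add_vecMul, Matrix.vecMul_vecMul, Matrix.vecMul_vecMul, hY, Matrix.vecMul_zero,
      Matrix.neg_vecMul, Matrix.vecMul_vecMul, hF, zero_add, add_neg_cancel]
  · change -((-(c ᵥ* ds (n + 1))) ᵥ* ds n) = 0
    rw [Matrix.neg_vecMul, neg_neg, Matrix.vecMul_vecMul, hC, Matrix.vecMul_zero]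

include hF

/-- the action on the homology of the cone -/
lemma cone_kill (hYe : ∀ n (z : Fin (yn (n + 1)) → MonoidAlgebra k Q), z ᵥ* dY n = 0 →
      ∃ w, w ᵥ* dY (n + 1) = z) (n : ℕ) (a : MonoidAlgebra k Q)
    (ha : ∀ (y : Fin (yn (n + 1)) → MonoidAlgebra k Q) (c : Fin (cs (n + 1)) → MonoidAlgebra k Q),
      c ᵥ* ds n = 0 → y ᵥ* dY n + c ᵥ* F n = 0 → ∃ c', c' ᵥ* ds (n + 1) = a • c)
    (p : DD k Q yn cs (n + 1)) (hp : dD dY ds F n p = 0) :
    ∃ q, dD dY ds F (n + 1) q = a • p := by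
  obtain ⟨y, c⟩ := p
  have hyc : y ᵥ* dY n + c ᵥ* F n = 0 := congrArg Prod.fst hp
  have hc0 : -(c ᵥ* ds n) = 0 := congrArg Prod.snd hp
  obtain ⟨c', hc'⟩ := ha y c (neg_eq_zero.1 hc0) hyc
  obtain ⟨w, hw⟩ := hYe n (a • y + c' ᵥ* F (n + 1)) (by
    rw [Matrix.add_vecMul, Matrix.vecMul_vecMul, ← hF, ← Matrix.vecMul_vecMul, hc',
      Matrix.smul_vecMul, Matrix.smul_vecMul, ← smul_add, hyc, smul_zero])
  refine ⟨(w, -c'), ?_⟩
  rw [dD_apply]
  refine Prod.ext ?_ ?_
  · change w ᵥ* dY (n + 1) + (-c') ᵥ* F (n + 1) = a • y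
    rw [Matrix.neg_vecMul, hw, add_neg_cancel_right]
  · change -((-c') ᵥ* ds (n + 1)) = a • c
    rw [Matrix.neg_vecMul, neg_neg, hc']

/-- the conclusion for the resolution `Y` -/
theorem cone_final (r : ℕ) (s0 : Matrix (Fin (cs (r + 1))) (Fin (cs (r + 2))) S)
    (s1 : Matrix (Fin (cs (r + 2))) (Fin (cs (r + 3))) S)
    (hs : (ds (r + 1)).map κ * s0 + s1 * (ds (r + 2)).map κ = 1)
    (hco : ∀ (M : Type) (_ : AddCommGroup M) (_ : Module k M) (_ : Module S M)
      (hκ : ∀ (c : k) (m : M), κ (algebraMap k (MonoidAlgebra k Q) c) • m = c • m),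
      CoEx (fun n => lm (DD k Q yn cs n)) (dD dY ds F) (repM κ hκ) Set.univ (r + 1))
    (x : Fin (yn (r + 1)) → S) (hx : x ᵥ* (dY r).map κ = 0) :
    ∃ y, y ᵥ* (dY (r + 1)).map κ = x := by
  let B := LinearMap.range ((dY (r + 1)).map κ).vecMulLinear
  let M := (Fin (yn (r + 1)) → S) ⧸ B
  let : Module k M := Module.compHom M (κ.comp (algebraMap k (MonoidAlgebra k Q)))
  have hκ : ∀ (c : k) (m : M), κ (algebraMap k (MonoidAlgebra k Q) c) • m = c • m :=
    fun c m => rfl
  have hmk : ∀ v, B.mkQ (v ᵥ* (dY (r + 1)).map κ) = 0 := by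
    intro v
    rw [Submodule.mkQ_apply, Submodule.Quotient.mk_eq_zero]
    exact ⟨v, rfl⟩
  let Φ : DD k Q yn cs (r + 1) →ₗ[k] M :=
    (LL κ hκ B.mkQ 1).coprod (LL κ hκ B.mkQ (s0 * (F (r + 1)).map κ))
  have hΦ : ∀ y c, Φ (y, c) = B.mkQ (fun j => κ (y j)) +
      B.mkQ ((fun j => κ (c j)) ᵥ* (s0 * (F (r + 1)).map κ)) := by
    intro y c
    change LL κ hκ B.mkQ 1 y + LL κ hκ B.mkQ (s0 * (F (r + 1)).map κ) c = _
    rw [LL_apply, LL_apply, Matrix.vecMul_one]
  have hΦe : Eqv Set.univ (lm _) (repM κ hκ) Φ := by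
    intro q hq p
    obtain ⟨y, c⟩ := p
    change LL κ hκ B.mkQ 1 (lm _ q y) + LL κ hκ B.mkQ (s0 * (F (r + 1)).map κ) (lm _ q c) =
      repM κ hκ q (LL κ hκ B.mkQ 1 y + LL κ hκ B.mkQ (s0 * (F (r + 1)).map κ) c)
    rw [LL_eqv κ hκ B.mkQ _ q hq, LL_eqv κ hκ B.mkQ _ q hq, map_add]
  have hΦd : Φ ∘ₗ dD dY ds F (r + 1) = 0 := by
    refine LinearMap.ext fun p => ?_
    obtain ⟨y, c⟩ := p
    rw [LinearMap.comp_apply, dD_apply, hΦ, LinearMap.zero_apply]
    have h1 : (fun j => κ ((y ᵥ* dY (r + 1) + c ᵥ* F (r + 1)) j)) =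
        (fun j => κ (y j)) ᵥ* (dY (r + 1)).map κ + (fun j => κ (c j)) ᵥ* (F (r + 1)).map κ := by
      rw [← vmap', ← vmap']
      funext j
      exact map_add κ _ _
    have h2 : (fun j => κ ((-(c ᵥ* ds (r + 1))) j)) =
        -((fun j => κ (c j)) ᵥ* (ds (r + 1)).map κ) := by
      rw [← vmap']
      funext j
      exact map_neg κ _
    have h3 : (fun j => κ (c j)) ᵥ* (F (r + 1)).map κ =
        ((fun j => κ (c j)) ᵥ* (ds (r + 1)).map κ) ᵥ* (s0 * (F (r + 1)).map κ) +
        ((fun j => κ (c j)) ᵥ* s1 ᵥ* (F (r + 2)).map κ) ᵥ* (dY (r + 1)).map κ := by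
      have h4 : (ds (r + 2)).map κ * (F (r + 1)).map κ =
          (F (r + 2)).map κ * (dY (r + 1)).map κ := by
        rw [← Matrix.map_mul, ← Matrix.map_mul, hF]
      rw [Matrix.vecMul_vecMul, Matrix.vecMul_vecMul, Matrix.vecMul_vecMul, ← Matrix.mul_assoc,
        ← h4, ← Matrix.mul_assoc s1, ← Matrix.vecMul_add, ← Matrix.add_mul, hs,
        Matrix.one_mul]
    rw [h1, h2, map_add, hmk, zero_add, Matrix.neg_vecMul, map_neg]
    conv_lhs => rw [h3]
    rw [map_add, hmk, add_zero, add_neg_cancel]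
  obtain ⟨Ψ, hΨe, hΨ⟩ := hco M _ _ _ hκ Φ hΦe hΦd
  -- evaluate on the basis
  have hbase : ∀ j : Fin (yn (r + 1)), B.mkQ (Pi.single j 1) =
      ∑ l, κ (dY r j l) • Ψ (Pi.single l 1, 0) := by
    intro j
    have h1 := LinearMap.congr_fun hΨ (Pi.single j 1, 0)
    rw [hΦ] at h1
    have h2 : (fun i => κ ((Pi.single j 1 : Fin (yn (r + 1)) → MonoidAlgebra k Q) i)) =
        (Pi.single j 1 : Fin (yn (r + 1)) → S) := by
      funext i
      rw [Pi.single_apply, Pi.single_apply]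
      split_ifs
      · exact map_one κ
      · exact map_zero κ
    have h3 : (fun i => κ ((0 : Fin (cs (r + 1)) → MonoidAlgebra k Q) i)) = 0 := by
      funext i
      exact map_zero κ
    rw [h2, h3, Matrix.zero_vecMul, map_zero, add_zero] at h1
    rw [← h1, LinearMap.comp_apply]
    have h4 : dD dY ds F r (Pi.single j 1, 0) =
        ∑ l, dY r j l • ((Pi.single l 1, 0) : DD k Q yn cs r) := by
      refine Prod.ext ?_ ?_
      · change (Pi.single j 1 : Fin (yn (r + 1)) → MonoidAlgebra k Q) ᵥ* dY r +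
          (0 : Fin (cs (r + 1)) → MonoidAlgebra k Q) ᵥ* F r = _
        rw [Matrix.zero_vecMul, add_zero, Matrix.single_one_vecMul, Prod.fst_sum]
        funext i
        rw [Finset.sum_apply, Finset.sum_eq_single i]
        · change dY r j i = dY r j i * (Pi.single i 1 : Fin (yn r) → MonoidAlgebra k Q) i
          rw [Pi.single_eq_same, mul_one]
        · intro l _ hl
          change dY r j l * (Pi.single l 1 : Fin (yn r) → MonoidAlgebra k Q) i = 0
          rw [Pi.single_eq_of_ne hl.symm, mul_zero]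
        · intro h
          exact absurd (Finset.mem_univ i) h
      · change -((0 : Fin (cs (r + 1)) → MonoidAlgebra k Q) ᵥ* ds r) = _
        rw [Matrix.zero_vecMul, neg_zero, Prod.snd_sum]
        refine (Finset.sum_eq_zero fun l _ => ?_).symm
        exact smul_zero _
    rw [h4, map_sum]
    refine Finset.sum_congr rfl fun l _ => ?_
    exact semilin κ hκ Ψ hΨe _ _
  have hx2 : B.mkQ x = 0 := by
    have h1 : x = ∑ j, x j • (Pi.single j 1 : Fin (yn (r + 1)) → S) := by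
      funext i
      rw [Finset.sum_apply, Finset.sum_eq_single i]
      · change x i = x i * (Pi.single i 1 : Fin (yn (r + 1)) → S) i
        rw [Pi.single_eq_same, mul_one]
      · intro l _ hl
        change x l * (Pi.single l 1 : Fin (yn (r + 1)) → S) i = 0
        rw [Pi.single_eq_of_ne hl.symm, mul_zero]
      · intro h
        exact absurd (Finset.mem_univ i) h
    rw [h1, map_sum]
    simp only [map_smul, hbase, Finset.smul_sum]
    rw [Finset.sum_comm]
    refine Finset.sum_eq_zero fun l _ => ?_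
    have h2 : ∑ j, x j • κ (dY r j l) • Ψ (Pi.single l 1, 0) =
        (∑ j, x j * κ (dY r j l)) • Ψ (Pi.single l 1, 0) := by
      rw [Finset.sum_smul]
      exact Finset.sum_congr rfl fun j _ => smul_smul _ _ _
    rw [h2]
    have h3 : ∑ j, x j * κ (dY r j l) = (x ᵥ* (dY r).map κ) l := rfl
    rw [h3, hx, Pi.zero_apply, zero_smul]
  rw [Submodule.mkQ_apply, Submodule.Quotient.mk_eq_zero] at hx2
  exact hx2

end

end Pool.Agent.Helper6K1.ZP
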