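import Pool.Agent.Helper6K1.ZP.Concl2
import Pool.Agent.Helper6K1.ZM.Base

/-!
Fibrations with amenable fibre group over a base with commuting nonamenable subgroups.
-/

set_option autoImplicit false
set_option linter.unusedSectionVars false

open scoped Matrix

namespace Pool.Agent.Helper6K1.ZP

open Pool.Agent.H919R4.ZS MonoidAlgebra Pool.Agent.TH38.ZT Pool.Agent.R807.ZK
open Pool.Agent.Helper6K1.ZM
open Pool.Agent.H496R3.ZS (IsAmenable)

noncomputable section

/-- a finite family as a sequence -/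
def seq {Q : Type} [Group Q] {m : ℕ} (Γ : Fin m → Subgroup Q) (k : ℕ) : Subgroup Q :=
  if h : k < m then Γ ⟨k, h⟩ else ⊥

lemma KK_mono {Q : Type} [Group Q] (Γ : ℕ → Subgroup Q) {r s : ℕ} (h : r ≤ s) :
    KK Γ r ≤ KK Γ s := by
  induction s with
  | zero =>
    obtain rfl : r = 0 := by omega
    exact le_rfl
  | succ s ih =>
    rcases Nat.le_succ_iff.1 h with h | rfl
    · exact (ih h).trans le_sup_left
    · exact le_rfl

lemma KK_seq {Q : Type} [Group Q] {m : ℕ} (Γ : Fin m → Subgroup Q) :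
    KK (seq Γ) m = ⨆ k, Γ k := by
  refine le_antisymm ?_ (iSup_le fun k => ?_)
  · have h : ∀ r, KK (seq Γ) r ≤ ⨆ k, Γ k := by
      intro r
      induction r with
      | zero => exact bot_le
      | succ r ih =>
        refine sup_le ih ?_
        rw [seq]
        split_ifs with h
        · exact le_iSup Γ ⟨r, h⟩
        · exact bot_le
    exact h m
  · have h1 : Γ k = seq Γ k := by
      rw [seq, dif_pos k.2]
    rw [h1]
    exact (le_sup_right : seq Γ k ≤ KK (seq Γ) (k + 1)).trans (KK_mono _ k.2)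

theorem conclusion {G : Type} [Group G] (N : Subgroup G) [N.Normal] (hN : IsAmenable N) (m : ℕ)
    (Γ : Fin m → Subgroup (G ⧸ N)) (hΓ : ∀ k, ¬ IsAmenable (Γ k))
    (hcomm : ∀ k l, k ≠ l → ∀ x ∈ Γ k, ∀ y ∈ Γ l, x * y = y * x) (hnor : (⨆ k, Γ k).Normal)
    (Y : FinRes (G ⧸ N)) (i : ℕ) (hi : 2 ≤ i) (him : i ≤ m + 1) (hY : GoodBase Y i)
    (X : FinRes G) (hfin : ∀ q, 1 ≤ q → q < i → FinDim X (toRat N) q) :
    ∃ j ≤ i, Nontrivial (X.homology (toRed G) j) := by
  obtain ⟨k, hk, hk'⟩ := hY.exists_le hi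
  rcases Nat.lt_or_ge k 1 with h1 | h1
  · obtain ⟨j, hj, hj'⟩ := extension N hN X Y k hk' (Or.inr fun q h2 h3 => by omega)
    exact ⟨j, hj.trans hk, hj'⟩
  obtain ⟨r, rfl⟩ : ∃ r, k = r + 1 := ⟨k - 1, by omega⟩
  by_contra hcon
  push Not at hcon
  have h2 := main N hN X Y r (fun q hq hq' => hfin q hq (by omega)) (seq Γ) m ?_ ?_ ?_ (by omega)
    (fun j hj => hcon j (hj.trans hk))
  · exact not_nontrivial_iff_subsingleton.2 ((exAt_iff Y _ _).1 h2) hk'
  · intro a b hab x hx y hy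
    rw [seq] at hx hy
    split_ifs at hx hy with ha hb hb
    · exact hcomm _ _ (fun h => hab (congrArg Fin.val h)) x hx y hy
    · rw [Subgroup.mem_bot.1 hy, mul_one, one_mul]
    · rw [Subgroup.mem_bot.1 hx, mul_one, one_mul]
    · rw [Subgroup.mem_bot.1 hx, mul_one, one_mul]
  · intro a ha
    have h3 : seq Γ a = Γ ⟨a, ha⟩ := by
      rw [seq, dif_pos ha]
    rw [h3]
    exact hΓ _
  · rw [KK_seq]
    exact hnor

end

end Pool.Agent.Helper6K1.ZP
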