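import Pool.Agent.Helper6K1.ZP.Comm

/-!
Free modules over the group algebra are projective after restriction to a subgroup.
-/

set_option autoImplicit false
set_option linter.unusedSectionVars false

namespace Pool.Agent.Helper6K1.ZP

open LinearMap MonoidAlgebra

noncomputable section

variable {k : Type} [CommRing k] {Q : Type} [Group Q]

/-- the representation given by a module over the group algebra -/
def lm (V : Type) [AddCommGroup V] [Module k V] [Module (MonoidAlgebra k Q) V]
    [IsScalarTower k (MonoidAlgebra k Q) V] : Representation k Q V where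
  toFun q :=
    { toFun := fun x => (single q 1 : MonoidAlgebra k Q) • x
      map_add' := fun x y => smul_add _ x y
      map_smul' := fun c x => smul_comm _ c x }
  map_one' := by
    refine LinearMap.ext fun x => ?_
    exact one_smul (MonoidAlgebra k Q) x
  map_mul' p q := by
    refine LinearMap.ext fun x => ?_
    change (single (p * q) 1 : MonoidAlgebra k Q) • x =
      (single p 1 : MonoidAlgebra k Q) • (single q 1 : MonoidAlgebra k Q) • x
    rw [smul_smul, MonoidAlgebra.single_mul_single, mul_one]

lemma lm_apply {V : Type} [AddCommGroup V] [Module k V] [Module (MonoidAlgebra k Q) V]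
    [IsScalarTower k (MonoidAlgebra k Q) V] (q : Q) (x : V) :
    (lm V : Representation k Q V) q x = (single q 1 : MonoidAlgebra k Q) • x := rfl

/-- projectivity from a basis which is permuted -/
theorem proj_of_basis {V : Type} [AddCommGroup V] [Module k V] (σ : Representation k Q V)
    {ι : Type} (B : Module.Basis (ι × Q) k V) (hB : ∀ i p q, σ p (B (i, q)) = B (i, p * q))
    (H : Type) [Group H] (j : H →* Q) (hj : Function.Injective j) : Proj (σ.comp j) := by
  intro W W' _ _ _ _ ρ ρ' π hπ f hf hs
  classical
  -- coset representatives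
  let R := j.range
  let rep : Q → Q := fun q => (Quotient.out (QuotientGroup.mk (s := R) q⁻¹))⁻¹
  have hrep : ∀ q, ∃ h : H, q = j h * rep q := by
    intro q
    have h1 : (QuotientGroup.mk (s := R) (rep q)⁻¹ : Q ⧸ R) = QuotientGroup.mk q⁻¹ := by
      rw [inv_inv]
      exact Quotient.out_eq _
    rw [QuotientGroup.eq, inv_inv] at h1
    obtain ⟨h, hh⟩ := h1
    refine ⟨h⁻¹, ?_⟩
    rw [map_inv, hh]
    group
  have hrep2 : ∀ (h : H) q, rep (j h * q) = rep q := by
    intro h q
    have h1 : (QuotientGroup.mk (s := R) (j h * q)⁻¹ : Q ⧸ R) = QuotientGroup.mk q⁻¹ := by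
      rw [QuotientGroup.eq, inv_inv, mul_inv_cancel_right]
      exact ⟨h, rfl⟩
    change (Quotient.out (QuotientGroup.mk (s := R) (j h * q)⁻¹))⁻¹ = _
    rw [h1]
  choose c hc using hrep
  have hcm : ∀ (h : H) q, c (j h * q) = h * c q := by
    intro h q
    refine hj ?_
    have h1 := hc (j h * q)
    rw [hrep2] at h1
    have h2 := hc q
    rw [map_mul]
    refine mul_right_cancel (b := rep q) ?_
    rw [← h1, mul_assoc, ← h2]
  choose w hw using fun i q => hs (B (i, q))
  let g : V →ₗ[k] W := B.constr k fun x => ρ (c x.2) (w x.1 (rep x.2))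
  have hg : ∀ i q, g (B (i, q)) = ρ (c q) (w i (rep q)) := by
    intro i q
    exact B.constr_basis k _ (i, q)
  refine ⟨g, ?_, ?_⟩
  · intro h x
    have h1 : g ∘ₗ (σ (j h)) = ρ h ∘ₗ g := by
      refine B.ext fun b => ?_
      obtain ⟨i, q⟩ := b
      rw [LinearMap.comp_apply, LinearMap.comp_apply, hB, hg, hg, hcm, hrep2, map_mul]
      rfl
    exact LinearMap.congr_fun h1 x
  · intro x
    have h1 : π ∘ₗ g = f := by
      refine B.ext fun b => ?_
      obtain ⟨i, q⟩ := b
      rw [LinearMap.comp_apply, hg, hπ, hw, ← hf]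
      change f (σ (j (c q)) (B (i, rep q))) = _
      rw [hB, ← hc]
    exact LinearMap.congr_fun h1 x

/-- the basis of a free module -/
def bas (k Q : Type) [CommRing k] [Group Q] (a : ℕ) :
    Module.Basis (Fin a × Q) k (Fin a → MonoidAlgebra k Q) :=
  (Pi.basis fun _ : Fin a => MonoidAlgebra.basis Q k).reindex (Equiv.sigmaEquivProd (Fin a) Q)

lemma bas_apply (a : ℕ) (i : Fin a) (q : Q) :
    bas k Q a (i, q) = Pi.single i (single q 1) := by
  rw [bas, Module.Basis.reindex_apply, Pi.basis_apply]
  simp

theorem proj_free (a : ℕ) (H : Type) [Group H] (j : H →* Q) (hj : Function.Injective j) :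
    Proj ((lm (Fin a → MonoidAlgebra k Q) : Representation k Q _).comp j) := by
  refine proj_of_basis _ (bas k Q a) ?_ H j hj
  intro i p q
  rw [lm_apply, bas_apply, bas_apply, ← Pi.single_smul, smul_eq_mul,
    MonoidAlgebra.single_mul_single, mul_one]

theorem proj_prod {V W : Type} [AddCommGroup V] [Module k V] [Module (MonoidAlgebra k Q) V]
    [IsScalarTower k (MonoidAlgebra k Q) V] [AddCommGroup W] [Module k W]
    [Module (MonoidAlgebra k Q) W] [IsScalarTower k (MonoidAlgebra k Q) W]
    (H : Type) [Group H] (j : H →* Q)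
    (hV : Proj ((lm V : Representation k Q V).comp j))
    (hW : Proj ((lm W : Representation k Q W).comp j)) :
    Proj ((lm (V × W) : Representation k Q (V × W)).comp j) := by
  intro X X' _ _ _ _ ρ ρ' π hπ f hf hs
  obtain ⟨g, hg, hg2⟩ := hV X X' _ _ _ _ ρ ρ' π hπ (f ∘ₗ LinearMap.inl k V W) (fun h x => by
    have := hf h (x, 0)
    rw [LinearMap.comp_apply, LinearMap.comp_apply, LinearMap.inl_apply, LinearMap.inl_apply,
      ← this]
    congr 1
    exact Prod.ext rfl (smul_zero _).symm) (fun x => hs (x, 0))
  obtain ⟨g', hg', hg2'⟩ := hW X X' _ _ _ _ ρ ρ' π hπ (f ∘ₗ LinearMap.inr k V W) (fun h x => by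
    have := hf h (0, x)
    rw [LinearMap.comp_apply, LinearMap.comp_apply, LinearMap.inr_apply, LinearMap.inr_apply,
      ← this]
    congr 1
    exact Prod.ext (smul_zero _).symm rfl) (fun x => hs (0, x))
  refine ⟨g.coprod g', ?_, ?_⟩
  · intro h x
    rw [LinearMap.coprod_apply, LinearMap.coprod_apply, map_add, ← hg, ← hg']
    rfl
  · intro x
    rw [LinearMap.coprod_apply, map_add, hg2, hg2', LinearMap.comp_apply, LinearMap.comp_apply,
      ← map_add]
    congr 1
    simp

end

end Pool.Agent.Helper6K1.ZP
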