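import Pool.Agent.Helper6K1.ZP.Rel

/-!
Maps which kill the homology: compositions of many of them are homotopic to zero.
-/

set_option autoImplicit false
set_option linter.unusedSectionVars false

namespace Pool.Agent.Helper6K1.ZP

open LinearMap

noncomputable section

variable {k : Type} [CommRing k] {G : Type} [Group G]
  {D : ℕ → Type} [∀ n, AddCommGroup (D n)] [∀ n, Module k (D n)]
  (σ : ∀ n, Representation k G (D n)) (d : ∀ n, D (n + 1) →ₗ[k] D n)

/-- the homotopy identity in one degree -/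
def Hty (A : ∀ n, D n →ₗ[k] D n) (h : ∀ n, D n →ₗ[k] D (n + 1)) : ℕ → Prop
  | 0 => ∀ x, A 0 x = d 0 (h 0 x)
  | n + 1 => ∀ x, A (n + 1) x = d (n + 1) (h (n + 1) x) + h n (d n x)

/-- chain maps -/
def IsChain (A : ∀ n, D n →ₗ[k] D n) : Prop := ∀ n x, d n (A (n + 1) x) = A n (d n x)

/-- homotopic to zero below the degree `s` -/
def Null (K : Subgroup G) (A : ∀ n, D n →ₗ[k] D n) (s : ℕ) : Prop :=
  IsChain d A ∧ (∀ n, Eqv (K : Set G) (σ n) (σ n) (A n)) ∧
    ∃ h : ∀ n, D n →ₗ[k] D (n + 1), (∀ n, Eqv (K : Set G) (σ n) (σ (n + 1)) (h n)) ∧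
      ∀ n < s, Hty d A h n

/-- the map kills the homology in a degree -/
def Kill (A : ∀ n, D n →ₗ[k] D n) : ℕ → Prop
  | 0 => ∀ x, ∃ y, d 0 y = A 0 x
  | n + 1 => ∀ x, d n x = 0 → ∃ y, d (n + 1) y = A (n + 1) x

section eqv

variable {V W Z : Type} [AddCommGroup V] [Module k V] [AddCommGroup W] [Module k W]
  [AddCommGroup Z] [Module k Z] {H : Set G} {a : Representation k G V} {b : Representation k G W}
  {c : Representation k G Z}

lemma Eqv.comp {f : V →ₗ[k] W} {g : W →ₗ[k] Z} (hg : Eqv H b c g) (hf : Eqv H a b f) :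
    Eqv H a c (g ∘ₗ f) := by
  intro h hh x
  rw [LinearMap.comp_apply, LinearMap.comp_apply, hf h hh, hg h hh]

lemma Eqv.add {f g : V →ₗ[k] W} (hf : Eqv H a b f) (hg : Eqv H a b g) : Eqv H a b (f + g) := by
  intro h hh x
  rw [LinearMap.add_apply, LinearMap.add_apply, hf h hh, hg h hh, map_add]

lemma Eqv.sub {f g : V →ₗ[k] W} (hf : Eqv H a b f) (hg : Eqv H a b g) : Eqv H a b (f - g) := by
  intro h hh x
  rw [LinearMap.sub_apply, LinearMap.sub_apply, hf h hh, hg h hh, map_sub]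

lemma Eqv.zero : Eqv H a b (0 : V →ₗ[k] W) := by
  intro h hh x
  rw [LinearMap.zero_apply, LinearMap.zero_apply, map_zero]

end eqv

/-- the lifting property in terms of equivariance under a subgroup -/
lemma Proj.lift' {V W W' : Type} [AddCommGroup V] [Module k V] [AddCommGroup W] [Module k W]
    [AddCommGroup W'] [Module k W'] {a : Representation k G V} {K : Subgroup G}
    (hP : Proj (a.comp K.subtype)) (b : Representation k G W) (c : Representation k G W')
    (π : W →ₗ[k] W') (hπ : Eqv (K : Set G) b c π) (f : V →ₗ[k] W') (hf : Eqv (K : Set G) a c f)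
    (h : ∀ x, ∃ y, π y = f x) :
    ∃ g : V →ₗ[k] W, Eqv (K : Set G) a b g ∧ ∀ x, π (g x) = f x := by
  obtain ⟨g, hg, hg2⟩ := hP W W' _ _ _ _ (b.comp K.subtype) (c.comp K.subtype) π
    (fun h x => hπ h h.2 x) f (fun h x => hf h h.2 x) h
  exact ⟨g, fun h hh x => hg ⟨h, hh⟩ x, hg2⟩

variable (hσ : ∀ n g x, d n (σ (n + 1) g x) = σ n g (d n x)) (hdd : ∀ n x, d n (d (n + 1) x) = 0)

include hdd in
lemma hty_d {A : ∀ n, D n →ₗ[k] D n} {h : ∀ n, D n →ₗ[k] D (n + 1)} {n : ℕ} (H : Hty d A h n)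
    (x : D (n + 1)) : A n (d n x) = d n (h n (d n x)) := by
  cases n with
  | zero => exact H _
  | succ n => rw [H, hdd, map_zero, add_zero]

include hσ hdd in
theorem ghost (K : Subgroup G) (hPK : ∀ n, Proj ((σ n).comp K.subtype))
    (A : ∀ n, D n →ₗ[k] D n) (s : ℕ) (hA : Null σ d K A s) (C : ∀ n, D n →ₗ[k] D n)
    (hC : IsChain d C) (hCK : ∀ n, Eqv (K : Set G) (σ n) (σ n) (C n)) (hk : Kill d C s) :
    Null σ d K (fun n => C n ∘ₗ A n) (s + 1) := by
  obtain ⟨hA1, hA2, h, hh, hty⟩ := hA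
  have hd : ∀ n, Eqv (K : Set G) (σ (n + 1)) (σ n) (d n) := fun n g _ x => hσ n g x
  refine ⟨?_, ?_, ?_⟩
  · intro n x
    rw [LinearMap.comp_apply, LinearMap.comp_apply, hC, hA1]
  · intro n
    exact (hCK n).comp (hA2 n)
  -- the correction
  obtain ⟨e, he, he1, he2⟩ : ∃ e : D s →ₗ[k] D s, Eqv (K : Set G) (σ s) (σ s) e ∧
      (∀ x, ∃ y, d s y = C s (A s x - d s (h s x) - e x)) ∧
      ∀ h' : ∀ n, D n →ₗ[k] D (n + 1), (∀ n < s, h' n = C (n + 1) ∘ₗ h n) →
        (∀ x, C s (A s x) - C s (e x) = d s (h' s x)) → Hty d (fun n => C n ∘ₗ A n) h' s := by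
    cases s with
    | zero =>
      refine ⟨0, Eqv.zero, fun x => hk _, fun h' _ h2 x => ?_⟩
      have := h2 x
      rw [LinearMap.zero_apply, map_zero, sub_zero] at this
      exact this
    | succ n =>
      refine ⟨h n ∘ₗ d n, (hh n).comp (hd n), fun x => hk _ ?_, fun h' h1 h2 x => ?_⟩
      · rw [map_sub, map_sub, hdd, sub_zero, hA1, LinearMap.comp_apply,
          hty_d d hdd (hty n (Nat.lt_succ_self n)), sub_self]
      · have h3 := h2 x
        rw [LinearMap.comp_apply] at h3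
        rw [LinearMap.comp_apply, ← h3, h1 n (Nat.lt_succ_self n), LinearMap.comp_apply]
        abel
  have hg : Eqv (K : Set G) (σ s) (σ s) (C s ∘ₗ (A s - d s ∘ₗ h s - e)) :=
    (hCK s).comp (((hA2 s).sub ((hd s).comp (hh s))).sub he)
  obtain ⟨h', hh', hh2⟩ := (hPK s).lift' (σ (s + 1)) (σ s) (d s) (hd s)
    (C s ∘ₗ (A s - d s ∘ₗ h s - e)) hg he1
  refine ⟨Function.update (fun n => C (n + 1) ∘ₗ h n) s (C (s + 1) ∘ₗ h s + h'), ?_, ?_⟩
  · intro n
    rcases eq_or_ne n s with rfl | hn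
    · rw [Function.update_self]
      exact ((hCK _).comp (hh _)).add hh'
    · rw [Function.update_of_ne hn]
      exact (hCK _).comp (hh _)
  · intro n hn
    rcases Nat.lt_succ_iff_lt_or_eq.1 hn with hn | rfl
    · have h1 := hty n hn
      cases n with
      | zero =>
        intro x
        rw [Function.update_of_ne hn.ne, LinearMap.comp_apply, LinearMap.comp_apply, h1 x, hC]
      | succ n =>
        intro x
        rw [Function.update_of_ne hn.ne, Function.update_of_ne (by omega), LinearMap.comp_apply,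
          LinearMap.comp_apply, LinearMap.comp_apply, h1 x, map_add, hC]
    · refine he2 _ (fun m hm => Function.update_of_ne hm.ne _ _) fun x => ?_
      rw [Function.update_self, LinearMap.add_apply, map_add, hh2, LinearMap.comp_apply, hC,
        LinearMap.comp_apply, LinearMap.sub_apply, LinearMap.sub_apply, LinearMap.comp_apply,
        map_sub, map_sub]
      abel

variable {M : Type} [AddCommGroup M] [Module k M] (ρ : Representation k G M)

lemma cob_add {H : Set G} {n : ℕ} {f g : D n →ₗ[k] M} (hf : Cob σ d ρ H n f)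
    (hg : Cob σ d ρ H n g) : Cob σ d ρ H n (f + g) := by
  cases n with
  | zero =>
    change f + g = 0
    rw [show f = 0 from hf, show g = 0 from hg, add_zero]
  | succ n =>
    obtain ⟨f', hf', rfl⟩ := hf
    obtain ⟨g', hg', rfl⟩ := hg
    exact ⟨f' + g', hf'.add hg', LinearMap.add_comp _ _ _⟩

lemma cob_comp {H : Set G} {n : ℕ} {f : D n →ₗ[k] M} (hf : Cob σ d ρ H n f) (b : M →ₗ[k] M)
    (hb : Eqv H ρ ρ b) : Cob σ d ρ H n (b ∘ₗ f) := by
  cases n with
  | zero =>
    change b ∘ₗ f = 0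
    rw [show f = 0 from hf, LinearMap.comp_zero]
  | succ n =>
    obtain ⟨f', hf', rfl⟩ := hf
    exact ⟨b ∘ₗ f', hb.comp hf', LinearMap.comp_assoc _ _ _⟩

lemma cob_zero {H : Set G} {n : ℕ} : Cob σ d ρ H n (0 : D n →ₗ[k] M) := by
  cases n with
  | zero => rfl
  | succ n => exact ⟨0, Eqv.zero, LinearMap.zero_comp _⟩

lemma cob_sum {H : Set G} {n : ℕ} {ι : Type} (s : Finset ι) (f : ι → D n →ₗ[k] M)
    (hf : ∀ i ∈ s, Cob σ d ρ H n (f i)) : Cob σ d ρ H n (∑ i ∈ s, f i) := by
  classical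
  induction s using Finset.induction_on with
  | empty => rw [Finset.sum_empty]; exact cob_zero σ d ρ
  | insert a s ha ih =>
    rw [Finset.sum_insert ha]
    exact cob_add σ d ρ (hf a (Finset.mem_insert_self a s))
      (ih fun i hi => hf i (Finset.mem_insert_of_mem hi))

/-- a cocycle composed with a map which is homotopic to zero -/
lemma cob_null {K : Subgroup G} {A : ∀ n, D n →ₗ[k] D n} {t : ℕ} (hA : Null σ d K A (t + 1))
    (f : D t →ₗ[k] M) (hf : Eqv (K : Set G) (σ t) ρ f) (hfd : f ∘ₗ d t = 0) :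
    Cob σ d ρ (K : Set G) t (f ∘ₗ A t) := by
  obtain ⟨-, -, h, hh, hty⟩ := hA
  have h1 := hty t (Nat.lt_succ_self t)
  have h0 : ∀ y, f (d t y) = 0 := fun y => LinearMap.congr_fun hfd y
  cases t with
  | zero =>
    refine LinearMap.ext fun x => ?_
    rw [LinearMap.comp_apply, h1 x, h0, LinearMap.zero_apply]
  | succ t =>
    refine ⟨f ∘ₗ h t, hf.comp (hh t), LinearMap.ext fun x => ?_⟩
    rw [LinearMap.comp_apply, LinearMap.comp_apply, LinearMap.comp_apply, h1 x, map_add, h0,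
      zero_add]

include hσ hdd

/-- The inductive step: the maps `C j` are `K`-equivariant chain maps which kill the homology in
degrees at most `t`, they induce `c j` on `M`, and the `c j` generate the unit left ideal of the
`K`-equivariant endomorphisms of `M`. -/
theorem step (K : Subgroup G) [K.Normal] (hP : ∀ n, Proj (σ n))
    (hPK : ∀ n, Proj ((σ n).comp K.subtype)) (t : ℕ)
    (hU : ∃ (m : ℕ) (b c : Fin m → M →ₗ[k] M) (C : Fin m → ∀ n, D n →ₗ[k] D n),
      (∀ j, Eqv (K : Set G) ρ ρ (b j)) ∧ (∀ j, IsChain d (C j)) ∧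
      (∀ j n, Eqv (K : Set G) (σ n) (σ n) (C j n)) ∧ (∀ j, ∀ s ≤ t, Kill d (C j) s) ∧
      (∀ j, ∀ f : D t →ₗ[k] M, Eqv Set.univ (σ t) ρ f → f ∘ₗ C j t = c j ∘ₗ f) ∧
      ∑ j, b j ∘ₗ c j = LinearMap.id)
    (hK : ∀ s < t, CoEx σ d ρ (K : Set G) s) :
    CoEx σ d ρ Set.univ t := by
  intro f hf hfd
  have hfK : Eqv (K : Set G) (σ t) ρ f := fun g _ x => hf g (Set.mem_univ g) x
  obtain ⟨m, b, c, C, hb, hC, hCK, hkill, hfc, hbc⟩ := hU
  have key : ∀ (j : ℕ) (s : ℕ), s + j = t + 1 → ∀ A : ∀ n, D n →ₗ[k] D n, Null σ d K A s →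
      Cob σ d ρ (K : Set G) t (f ∘ₗ A t) := by
    intro j
    induction j with
    | zero =>
      intro s hs A hA
      obtain rfl : s = t + 1 := hs
      exact cob_null σ d ρ hA f hfK hfd
    | succ j ih =>
      intro s hs A hA
      have h1 : ∀ i, Cob σ d ρ (K : Set G) t (c i ∘ₗ f ∘ₗ A t) := by
        intro i
        have h2 := ih (s + 1) (by omega) _ (ghost σ d hσ hdd K hPK A s hA
          (C i) (hC i) (hCK i) (hkill i s (by omega)))
        have h3 : f ∘ₗ (C i t ∘ₗ A t) = c i ∘ₗ f ∘ₗ A t := by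
          rw [← LinearMap.comp_assoc, hfc i f hf, LinearMap.comp_assoc]
        rw [← h3]
        exact h2
      have h4 : f ∘ₗ A t = ∑ i, b i ∘ₗ (c i ∘ₗ f ∘ₗ A t) := by
        refine LinearMap.ext fun x => ?_
        have h5 := LinearMap.congr_fun hbc (f (A t x))
        rw [LinearMap.id_apply, LinearMap.sum_apply] at h5
        rw [LinearMap.sum_apply]
        exact h5.symm
      rw [h4]
      exact cob_sum σ d ρ _ _ fun i _ => cob_comp σ d ρ (h1 i) (b i) (hb i)
  have h0 := key (t + 1) 0 (by omega) (fun n => LinearMap.id) ⟨fun n x => rfl,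
    fun n g _ x => rfl, fun n => 0, fun n => Eqv.zero, fun n hn => absurd hn (Nat.not_lt_zero n)⟩
  rw [LinearMap.comp_id] at h0
  exact descent σ d K hσ hdd hP t M ρ hK f hf hfd h0

end

end Pool.Agent.Helper6K1.ZP
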