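import Mathlib

/-!
Relative cohomology of a complex of representations: descent along a normal subgroup.
-/

set_option autoImplicit false
set_option linter.unusedSectionVars false

namespace Pool.Agent.Helper6K1.ZP

open LinearMap

noncomputable section

variable {k : Type} [CommRing k] {G : Type} [Group G]

/-- equivariance under a subset of the group -/
def Eqv {V W : Type} [AddCommGroup V] [Module k V] [AddCommGroup W] [Module k W]
    (H : Set G) (σ : Representation k G V) (ρ : Representation k G W) (f : V →ₗ[k] W) : Prop :=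
  ∀ h ∈ H, ∀ x, f (σ h x) = ρ h (f x)

/-- the lifting property of projective representations -/
def Proj {V : Type} [AddCommGroup V] [Module k V] (σ : Representation k G V) : Prop :=
  ∀ (W W' : Type) (_ : AddCommGroup W) (_ : Module k W) (_ : AddCommGroup W') (_ : Module k W')
    (ρ : Representation k G W) (ρ' : Representation k G W') (π : W →ₗ[k] W'),
    (∀ h x, π (ρ h x) = ρ' h (π x)) → ∀ f : V →ₗ[k] W', (∀ h x, f (σ h x) = ρ' h (f x)) →
    (∀ x, ∃ y, π y = f x) → ∃ g : V →ₗ[k] W, (∀ h x, g (σ h x) = ρ h (g x)) ∧ ∀ x, π (g x) = f x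

variable {D : ℕ → Type} [∀ n, AddCommGroup (D n)] [∀ n, Module k (D n)]
  (σ : ∀ n, Representation k G (D n)) (d : ∀ n, D (n + 1) →ₗ[k] D n)

section

variable {M : Type} [AddCommGroup M] [Module k M] (ρ : Representation k G M)

/-- a linear map on `D n` is the coboundary of an equivariant linear map -/
def Cob (H : Set G) : ∀ n, (D n →ₗ[k] M) → Prop
  | 0, f => f = 0
  | n + 1, f => ∃ g : D n →ₗ[k] M, Eqv H (σ n) ρ g ∧ g ∘ₗ d n = f

/-- exactness of the complex of equivariant cochains at the place `n` -/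
def CoEx (H : Set G) (n : ℕ) : Prop :=
  ∀ f : D n →ₗ[k] M, Eqv H (σ n) ρ f → f ∘ₗ d n = 0 → Cob σ d ρ H n f

end

/-! ### the coinduced representation and its quotient by the constants -/

variable {M : Type} [AddCommGroup M] [Module k M] (ρ : Representation k G M) (K : Subgroup G)

/-- functions on `G/K` with values in `M` -/
def rhoJ : Representation k G (G ⧸ K → M) where
  toFun g :=
    { toFun := fun F x => ρ g (F (g⁻¹ • x))
      map_add' := fun F F' => by funext x; exact map_add _ _ _
      map_smul' := fun c F => by funext x; exact map_smul _ _ _ }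
  map_one' := by
    refine LinearMap.ext fun F => ?_
    funext x
    change ρ 1 (F ((1 : G)⁻¹ • x)) = F x
    rw [inv_one, one_smul, map_one]
    rfl
  map_mul' g h := by
    refine LinearMap.ext fun F => ?_
    funext x
    change ρ (g * h) (F ((g * h)⁻¹ • x)) = ρ g (ρ h (F (h⁻¹ • g⁻¹ • x)))
    rw [mul_inv_rev, mul_smul, map_mul]
    rfl

lemma rhoJ_apply (g : G) (F : G ⧸ K → M) (x : G ⧸ K) : rhoJ ρ K g F x = ρ g (F (g⁻¹ • x)) := rfl

variable (k M) in
/-- the constants -/
def cst : M →ₗ[k] (G ⧸ K → M) := LinearMap.pi fun _ => LinearMap.id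

lemma cst_apply (m : M) (x : G ⧸ K) : cst k M K m x = m := rfl

lemma rhoJ_cst (g : G) (m : M) : rhoJ ρ K g (cst k M K m) = cst k M K (ρ g m) := rfl

variable (k M) in
/-- the quotient of the functions by the constants -/
abbrev Quo : Type := (G ⧸ K → M) ⧸ LinearMap.range (cst k M K)

/-- the representation on the quotient -/
def rhoQ : Representation k G (Quo k M K) where
  toFun g := (LinearMap.range (cst k M K)).mapQ (LinearMap.range (cst k M K)) (rhoJ ρ K g) (by
    rintro _ ⟨m, rfl⟩
    exact ⟨ρ g m, rhoJ_cst ρ K g m⟩)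
  map_one' := by
    refine Submodule.linearMap_qext _ (LinearMap.ext fun F => ?_)
    change Submodule.Quotient.mk (rhoJ ρ K 1 F) = Submodule.Quotient.mk F
    rw [map_one]
    rfl
  map_mul' g h := by
    refine Submodule.linearMap_qext _ (LinearMap.ext fun F => ?_)
    change Submodule.Quotient.mk (rhoJ ρ K (g * h) F) =
      Submodule.Quotient.mk (rhoJ ρ K g (rhoJ ρ K h F))
    rw [map_mul]
    rfl

lemma rhoQ_mk (g : G) (F : G ⧸ K → M) :
    rhoQ ρ K g (Submodule.Quotient.mk F) = Submodule.Quotient.mk (rhoJ ρ K g F) := rfl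

variable (k M) in
/-- the differences with the value at the base point, before the quotient -/
def dif' (x : G ⧸ K) : (G ⧸ K → M) →ₗ[k] M where
  toFun F := F x - F (QuotientGroup.mk (1 : G))
  map_add' F F' := add_sub_add_comm _ _ _ _
  map_smul' c F := (smul_sub c _ _).symm

variable (k M) in
/-- the differences with the value at the base point -/
def dif (x : G ⧸ K) : Quo k M K →ₗ[k] M :=
  (LinearMap.range (cst k M K)).liftQ (dif' k M K x) (by
    rintro _ ⟨m, rfl⟩
    exact sub_self m)

lemma dif_mk (x : G ⧸ K) (F : G ⧸ K → M) :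
    dif k M K x (Submodule.Quotient.mk F) = F x - F (QuotientGroup.mk (1 : G)) := rfl

lemma mk_dif (q : Quo k M K) :
    (Submodule.Quotient.mk (fun x => dif k M K x q) : Quo k M K) = q := by
  obtain ⟨F, rfl⟩ := Submodule.Quotient.mk_surjective _ q
  rw [Submodule.Quotient.eq]
  refine ⟨- F (QuotientGroup.mk (1 : G)), ?_⟩
  funext x
  rw [cst_apply, Pi.sub_apply, dif_mk]
  abel

variable [K.Normal]

lemma smul_quot {h : G} (hh : h ∈ K) (x : G ⧸ K) : h • x = x := by
  induction x using QuotientGroup.induction_on with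
  | H g =>
    change (QuotientGroup.mk (h * g) : G ⧸ K) = QuotientGroup.mk g
    rw [QuotientGroup.eq]
    have : (h * g)⁻¹ * g = (g⁻¹ * h * g⁻¹⁻¹)⁻¹ := by group
    rw [this]
    exact K.inv_mem (‹K.Normal›.conj_mem h hh g⁻¹)

lemma rhoJ_mem {h : G} (hh : h ∈ K) (F : G ⧸ K → M) :
    rhoJ ρ K h F = fun x => ρ h (F x) := by
  funext x
  rw [rhoJ_apply, smul_quot K (K.inv_mem hh)]

lemma dif_eqv (x : G ⧸ K) : Eqv (K : Set G) (rhoQ ρ K) ρ (dif k M K x) := by
  intro h hh q
  obtain ⟨F, rfl⟩ := Submodule.Quotient.mk_surjective _ q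
  rw [rhoQ_mk, dif_mk, dif_mk, rhoJ_mem ρ K hh, map_sub]

/-- exactness passes to the quotient -/
lemma coEx_quo (n : ℕ) (h : CoEx σ d ρ (K : Set G) n) :
    CoEx σ d (rhoQ ρ K) (K : Set G) n := by
  intro f hf hfd
  have h1 : ∀ x : G ⧸ K, Cob σ d ρ (K : Set G) n (dif k M K x ∘ₗ f) := by
    intro x
    refine h _ ?_ ?_
    · intro g hg y
      rw [LinearMap.comp_apply, LinearMap.comp_apply, hf g hg y, dif_eqv ρ K x g hg]
    · rw [LinearMap.comp_assoc, hfd, LinearMap.comp_zero]
  cases n with
  | zero =>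
    refine LinearMap.ext fun y => ?_
    rw [← mk_dif K (f y), LinearMap.zero_apply, Submodule.Quotient.mk_eq_zero]
    refine ⟨0, ?_⟩
    rw [map_zero]
    funext x
    exact (LinearMap.congr_fun (h1 x) y).symm
  | succ n =>
    choose g hg hgd using h1
    refine ⟨(LinearMap.range (cst k M K)).mkQ ∘ₗ LinearMap.pi g, ?_, ?_⟩
    · intro a ha y
      change (Submodule.Quotient.mk (fun x => g x (σ n a y)) : Quo k M K) =
        rhoQ ρ K a (Submodule.Quotient.mk fun x => g x y)
      rw [rhoQ_mk, rhoJ_mem ρ K ha]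
      congr 1
      funext x
      exact hg x a ha y
    · refine LinearMap.ext fun y => ?_
      change (Submodule.Quotient.mk (fun x => g x (d n y)) : Quo k M K) = f y
      rw [← mk_dif K (f y)]
      congr 1
      funext x
      exact LinearMap.congr_fun (hgd x) y

variable (hσ : ∀ n g x, d n (σ (n + 1) g x) = σ n g (d n x)) (hdd : ∀ n x, d n (d (n + 1) x) = 0)
  (hP : ∀ n, Proj (σ n))

include hσ hdd hP

/-- the lift of an equivariant coboundary -/
lemma cob_lift (n : ℕ) (f : D n →ₗ[k] Quo k M K) (h : Cob σ d (rhoQ ρ K) Set.univ n f) :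
    ∃ E : D n →ₗ[k] (G ⧸ K → M), Eqv Set.univ (σ n) (rhoJ ρ K) E ∧ E ∘ₗ d n = 0 ∧
      ∀ x, (Submodule.Quotient.mk (E x) : Quo k M K) = f x := by
  cases n with
  | zero =>
    refine ⟨0, ?_, ?_, ?_⟩
    · intro a _ x
      rw [LinearMap.zero_apply, LinearMap.zero_apply, map_zero]
    · rw [LinearMap.zero_comp]
    · intro x
      rw [show f = 0 from h]
      rfl
  | succ n =>
    obtain ⟨g, hg, hgd⟩ := h
    obtain ⟨g', hg', hg2⟩ := hP n _ _ _ _ _ _ (rhoJ ρ K) (rhoQ ρ K)
      (LinearMap.range (cst k M K)).mkQ (fun a x => rfl) g (fun a x => hg a (Set.mem_univ a) x)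
      (fun x => Submodule.Quotient.mk_surjective _ (g x))
    refine ⟨g' ∘ₗ d n, ?_, ?_, ?_⟩
    · intro a _ x
      rw [LinearMap.comp_apply, LinearMap.comp_apply, hσ, hg']
    · refine LinearMap.ext fun x => ?_
      rw [LinearMap.comp_apply, LinearMap.comp_apply, hdd, map_zero]
      rfl
    · intro x
      rw [← hgd]
      exact hg2 (d n x)

/-- descent along a normal subgroup -/
theorem descent (n : ℕ) : ∀ (M : Type) [AddCommGroup M] [Module k M] (ρ : Representation k G M),
    (∀ t < n, CoEx σ d ρ (K : Set G) t) → ∀ f : D n →ₗ[k] M, Eqv Set.univ (σ n) ρ f →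
    f ∘ₗ d n = 0 → Cob σ d ρ (K : Set G) n f → Cob σ d ρ Set.univ n f := by
  induction n with
  | zero => intro M _ _ ρ _ f _ _ h; exact h
  | succ n ih =>
    intro M _ _ ρ hK f hf hfd hc
    obtain ⟨g, hg, hgd⟩ := hc
    -- the induced map
    have hwd : ∀ (x : D n) (a b : G), QuotientGroup.leftRel K a b →
        ρ a (g (σ n a⁻¹ x)) = ρ b (g (σ n b⁻¹ x)) := by
      intro x a b hab
      rw [QuotientGroup.leftRel_apply] at hab
      have h1 : σ n a⁻¹ x = σ n (a⁻¹ * b) (σ n b⁻¹ x) := by
        rw [← Module.End.mul_apply, ← map_mul, mul_assoc, mul_inv_cancel, mul_one]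
      rw [h1, hg _ hab, ← Module.End.mul_apply, ← map_mul, mul_inv_cancel_left]
    let F : D n →ₗ[k] (G ⧸ K → M) :=
      { toFun := fun x q => Quotient.lift (fun a : G => ρ a (g (σ n a⁻¹ x))) (hwd x) q
        map_add' := fun x y => by
          funext q
          induction q using QuotientGroup.induction_on with
          | H a =>
            change ρ a (g (σ n a⁻¹ (x + y))) = ρ a (g (σ n a⁻¹ x)) + ρ a (g (σ n a⁻¹ y))
            rw [map_add, map_add, map_add]
        map_smul' := fun c x => by
          funext q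
          induction q using QuotientGroup.induction_on with
          | H a =>
            change ρ a (g (σ n a⁻¹ (c • x))) = c • ρ a (g (σ n a⁻¹ x))
            rw [map_smul, map_smul, map_smul] }
    have hF : ∀ (x : D n) (a : G), F x (QuotientGroup.mk a) = ρ a (g (σ n a⁻¹ x)) :=
      fun x a => rfl
    have hFe : Eqv Set.univ (σ n) (rhoJ ρ K) F := by
      intro b _ x
      funext q
      induction q using QuotientGroup.induction_on with
      | H a =>
        rw [rhoJ_apply]
        change F (σ n b x) (QuotientGroup.mk a) = ρ b (F x (QuotientGroup.mk (b⁻¹ * a)))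
        rw [hF, hF, ← Module.End.mul_apply (ρ b), ← map_mul, mul_inv_cancel_left,
          ← Module.End.mul_apply (σ n a⁻¹), ← map_mul, mul_inv_rev, inv_inv]
    have hFd : ∀ x, F (d n x) = cst k M K (f x) := by
      intro x
      funext q
      induction q using QuotientGroup.induction_on with
      | H a =>
        rw [hF, cst_apply, ← hσ]
        have h1 : g (d n (σ (n + 1) a⁻¹ x)) = f (σ (n + 1) a⁻¹ x) := LinearMap.congr_fun hgd _
        rw [h1, ← hf a (Set.mem_univ a), ← Module.End.mul_apply, ← map_mul, mul_inv_cancel, map_one]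
        rfl
    -- the map into the quotient is a coboundary
    have hq : Cob σ d (rhoQ ρ K) Set.univ n ((LinearMap.range (cst k M K)).mkQ ∘ₗ F) := by
      have h1 : Eqv Set.univ (σ n) (rhoQ ρ K) ((LinearMap.range (cst k M K)).mkQ ∘ₗ F) := by
        intro b hb x
        rw [LinearMap.comp_apply, hFe b hb x]
        rfl
      have h2 : ((LinearMap.range (cst k M K)).mkQ ∘ₗ F) ∘ₗ d n = 0 := by
        refine LinearMap.ext fun x => ?_
        rw [LinearMap.comp_apply, LinearMap.comp_apply, hFd, LinearMap.zero_apply,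
          Submodule.mkQ_apply, Submodule.Quotient.mk_eq_zero]
        exact ⟨f x, rfl⟩
      exact ih _ _ (fun t ht => coEx_quo σ d ρ K t (hK t (ht.trans (Nat.lt_succ_self n)))) _ h1 h2
        (coEx_quo σ d ρ K n (hK n (Nat.lt_succ_self n)) _
          (fun b _ x => h1 b (Set.mem_univ b) x) h2)
    obtain ⟨E, hE, hEd, hEq⟩ := cob_lift σ d ρ K hσ hdd hP n _ hq
    have hc : ∀ x, F x - E x ∈ LinearMap.range (cst k M K) := by
      intro x
      rw [← Submodule.Quotient.eq]
      exact (hEq x).symm
    have hc2 : ∀ x, cst k M K ((F x - E x) (QuotientGroup.mk (1 : G))) = F x - E x := by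
      intro x
      obtain ⟨m, hm⟩ := hc x
      rw [← hm, cst_apply]
    have hinj : Function.Injective (cst k M K) := by
      intro a b hab
      exact congrFun hab (QuotientGroup.mk 1)
    refine ⟨LinearMap.proj (QuotientGroup.mk 1) ∘ₗ (F - E), ?_, ?_⟩
    · intro b hb x
      refine hinj ?_
      change cst k M K ((F (σ n b x) - E (σ n b x)) (QuotientGroup.mk 1)) =
        cst k M K (ρ b ((F x - E x) (QuotientGroup.mk 1)))
      rw [hc2, ← rhoJ_cst, hc2, hFe b hb, hE b hb, map_sub]
    · refine LinearMap.ext fun x => ?_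
      change (F (d n x) - E (d n x)) (QuotientGroup.mk 1) = f x
      have h1 : E (d n x) = 0 := LinearMap.congr_fun hEd x
      rw [hFd, h1, sub_zero, cst_apply]

end

end Pool.Agent.Helper6K1.ZP
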