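import Pool.Agent.Helper6K1.ZM.Cod

/-!
Two statements about reduced group C*-algebras.
-/

set_option autoImplicit false

namespace Pool.Agent.Helper6K1.ZP

open Pool.Agent.H496R3.ZS (IsAmenable)
open Pool.Agent.H919R4.ZS
open Pool.Agent.TH38.ZT
open Pool.Agent.Helper6K1.ZM
open MonoidAlgebra (single)

/-- The reduced C*-algebra of a subgroup is contained in the one of the group, and commutes with the
centralizer of the subgroup. -/
def SubRed : Prop := ∀ (Q : Type) (_ : Group Q) (Γ : Subgroup Q),
  ∃ θ : RedC Γ →+* RedC Q,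
    (∀ (γ : Γ) (c : ℂ), θ (toC (single γ c)) = toC (single (γ : Q) c)) ∧
    ∀ q : Q, (∀ γ ∈ Γ, q * γ = γ * q) → ∀ x, θ x * toC (single q 1) = toC (single q 1) * θ x

/-- A group which is not amenable has no almost invariant vectors in `ℓ²(Q)`, in the algebraic form:
the elements `1 - g` generate the reduced C*-algebra as a left ideal. -/
def Kesten : Prop := ∀ (Q : Type) (_ : Group Q), ¬ IsAmenable Q →
  (1 : RedC Q) ∈ Submodule.span (RedC Q)
    (Set.range fun g : Q => (1 : RedC Q) - toC (single g 1))

end Pool.Agent.Helper6K1.ZP
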